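import Pool.Agent.H92HL.Main2

set_option autoImplicit false

open MeasureTheory Filter Topology
open scoped ENNReal NNReal BigOperators

namespace Pool.Agent.H92HL

lemma D_eventually (x : unitInterval) (b : Bool) (n : ℕ) (s : Rule) :
    ∃ δ : ℝ, 0 < δ ∧ ∀ ρ : ℝ, ρ < δ → D x b ρ n s := by
  induction n generalizing s with
  | zero => exact ⟨1, one_pos, fun _ _ => trivial⟩
  | succ n ih =>
    obtain ⟨δ, hδ, h⟩ := ih (bt x b s)
    by_cases hx : s [] = x
    · exact ⟨δ, hδ, fun ρ hρ => ⟨Or.inl hx, h ρ hρ⟩⟩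
    · have h1 : 0 < |(s [] : ℝ) - x| := by
        rw [abs_pos, sub_ne_zero]
        exact fun e => hx (Subtype.ext e)
      refine ⟨min δ (|(s [] : ℝ) - x| / 2), lt_min hδ (by linarith), fun ρ hρ => ?_⟩
      have h2 := hρ.trans_le (min_le_left _ _)
      have h3 := hρ.trans_le (min_le_right _ _)
      exact ⟨Or.inr (by linarith), h ρ h2⟩

lemma lintegral_F_le (x : unitInterval) (b : Bool) (n : ℕ) (σ : Measure Rule) (C : ℝ≥0∞)
    (h : ∀ ρ : ℝ, 0 < ρ → ∫⁻ s, G x b ρ n s ∂σ ≤ C) :
    ∫⁻ s, (F x b n s : ℝ≥0∞) ∂σ ≤ C := by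
  have h1 : ∀ s, (F x b n s : ℝ≥0∞) =
      liminf (fun j : ℕ => G x b (1 / ((j : ℝ) + 1)) n s) atTop := by
    intro s
    have : Tendsto (fun j : ℕ => G x b (1 / ((j : ℝ) + 1)) n s) atTop
        (𝓝 (F x b n s : ℝ≥0∞)) := by
      refine tendsto_const_nhds.congr' ?_
      obtain ⟨δ, hδ, hD⟩ := D_eventually x b n s
      have := tendsto_one_div_add_atTop_nhds_zero_nat (𝕜 := ℝ)
      filter_upwards [this.eventually_lt_const hδ] with j hj
      unfold G
      rw [if_pos (hD _ hj)]
    exact this.liminf_eq.symm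
  calc ∫⁻ s, (F x b n s : ℝ≥0∞) ∂σ
      = ∫⁻ s, liminf (fun j : ℕ => G x b (1 / ((j : ℝ) + 1)) n s) atTop ∂σ := by
        simp only [h1]
    _ ≤ liminf (fun j : ℕ => ∫⁻ s, G x b (1 / ((j : ℝ) + 1)) n s ∂σ) atTop :=
        lintegral_liminf_le fun j => measurable_G _ _ _ _
    _ ≤ C := by
        refine (liminf_le_liminf (Eventually.of_forall fun j => h _ (by positivity))).trans ?_
        simp

lemma F_mono_succ (x : unitInterval) (b : Bool) (n : ℕ) (s : Rule) :
    F x b n s ≤ F x b (n + 1) s := by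
  induction n generalizing s with
  | zero => simp [F]
  | succ n ih =>
    rw [F, F]
    exact Nat.add_le_add_left (ih _) _

lemma F_mono (x : unitInterval) (b : Bool) (s : Rule) : Monotone fun n => F x b n s :=
  monotone_nat_of_le_succ fun n => F_mono_succ x b n s

lemma pp_of_F_zero (x : unitInterval) (b : Bool) (n : ℕ) (s : Rule) (hF : F x b n s = 0)
    (h : unitInterval) (hb : side x b h) : pp n s h = n * nndist x h := by
  induction n generalizing s with
  | zero => simp [pp_zero]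
  | succ n ih =>
    rw [F] at hF
    have hx : s [] = x := by
      by_contra hne
      simp [hne] at hF
    have hF' : F x b n (bt x b s) = 0 := by omega
    have hbt : bt x b s = tl s b := by
      unfold bt
      rw [hx, if_neg (lt_irrefl _), if_neg (lt_irrefl _)]
    rw [hbt] at hF'
    cases b with
    | true =>
      have hb' : s [] < h := by rw [hx]; exact hb
      rw [pp_lt n s h hb', ih _ hF', hx]
      push_cast
      ring
    | false =>
      have hb' : h < s [] := by rw [hx]; exact hb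
      rw [pp_gt n s h hb', ih _ hF', hx]
      push_cast
      ring

lemma side_ne {x : unitInterval} {b : Bool} {h : unitInterval} (hb : side x b h) : x ≠ h := by
  cases b with
  | true => exact ne_of_lt hb
  | false => exact ne_of_gt hb

lemma payoff_top_of_F (x : unitInterval) (b : Bool) (n0 : ℕ) (s : Rule)
    (hF : ∀ n, n0 ≤ n → F x b n s = F x b n0 s) :
    ∃ δ : ℝ, 0 < δ ∧ ∀ h : unitInterval, side x b h → |(h : ℝ) - x| < δ → payoff s h = ∞ := by
  induction n0 generalizing s with
  | zero =>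
    refine ⟨1, one_pos, fun h hb _ => ?_⟩
    have h1 : ∀ n : ℕ, ((n : ℝ≥0∞) * (nndist x h : ℝ≥0∞)) ≤ payoff s h := by
      intro n
      have h2 := pp_of_F_zero x b n s (by rw [hF n (Nat.zero_le _)]; rfl) h hb
      have h3 := pp_le_payoff n s h
      rw [h2] at h3
      exact_mod_cast h3
    have hpos : (nndist x h : ℝ≥0∞) ≠ 0 := by
      rw [Ne, ENNReal.coe_eq_zero, nndist_eq_zero]
      exact side_ne hb
    by_contra hne
    obtain ⟨n, hn⟩ := ENNReal.exists_nat_mul_gt hpos hne
    exact absurd (h1 n) (not_le.2 hn)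
  | succ n0 ih =>
    have h1 : ∀ n, n0 ≤ n → F x b n (bt x b s) = F x b n0 (bt x b s) := by
      intro n hn
      have := hF (n + 1) (by omega)
      rw [F, F] at this
      omega
    obtain ⟨δ, hδ, h2⟩ := ih (bt x b s) h1
    rcases lt_trichotomy (s []) x with hx | hx | hx
    · have hx' : (s [] : ℝ) < x := hx
      refine ⟨min δ ((x : ℝ) - s []), lt_min hδ (by linarith), fun h hb hh => ?_⟩
      have h3 := h2 h hb (hh.trans_le (min_le_left _ _))
      have h4 := hh.trans_le (min_le_right _ _)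
      rw [abs_lt] at h4
      have h5 : s [] < h := by
        have : (s [] : ℝ) < h := by linarith
        exact this
      rw [bt, if_pos hx] at h3
      rw [payoff_lt s h h5, h3, add_top]
    · refine ⟨δ, hδ, fun h hb hh => ?_⟩
      have h3 := h2 h hb hh
      rw [bt, hx, if_neg (lt_irrefl _), if_neg (lt_irrefl _)] at h3
      cases b with
      | true =>
        have hb' : s [] < h := by rw [hx]; exact hb
        rw [payoff_lt s h hb', h3, add_top]
      | false =>
        have hb' : h < s [] := by rw [hx]; exact hb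
        rw [payoff_gt s h hb', h3, add_top]
    · have hx' : (x : ℝ) < s [] := hx
      refine ⟨min δ ((s [] : ℝ) - x), lt_min hδ (by linarith), fun h hb hh => ?_⟩
      have h3 := h2 h hb (hh.trans_le (min_le_left _ _))
      have h4 := hh.trans_le (min_le_right _ _)
      rw [abs_lt] at h4
      have h5 : h < s [] := by
        have : (h : ℝ) < s [] := by linarith
        exact this
      rw [bt, if_neg hx.not_gt, if_pos hx] at h3
      rw [payoff_gt s h h5, h3, add_top]

/-- nonempty open set on the allowed side -/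
lemma exists_side (x : unitInterval) (b : Bool) (hb : cond b (x < 1) (0 < x)) (δ : ℝ)
    (hδ : 0 < δ) (Q : Set unitInterval) (hQ : Dense Q) :
    ∃ q ∈ Q, side x b q ∧ |(q : ℝ) - x| < δ := by
  have hopen : IsOpen {h : unitInterval | side x b h ∧ |(h : ℝ) - x| < δ} := by
    refine IsOpen.inter ?_ ?_
    · cases b with
      | true => exact isOpen_lt continuous_const continuous_id
      | false => exact isOpen_lt continuous_id continuous_const
    · exact isOpen_lt ((continuous_subtype_val.sub continuous_const).abs) continuous_const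
  have hne : {h : unitInterval | side x b h ∧ |(h : ℝ) - x| < δ}.Nonempty := by
    have hx0 := x.2.1
    have hx1 := x.2.2
    cases b with
    | true =>
      have hb' : (x : ℝ) < 1 := hb
      have h1 : 0 < min (δ / 2) (1 - (x : ℝ)) := lt_min (by linarith) (by linarith)
      have h2 := min_le_left (δ / 2) (1 - (x : ℝ))
      have h3 := min_le_right (δ / 2) (1 - (x : ℝ))
      refine ⟨⟨(x : ℝ) + min (δ / 2) (1 - x), by linarith, by linarith⟩, ?_, ?_⟩
      · show (x : ℝ) < (x : ℝ) + min (δ / 2) (1 - x)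
        linarith
      · show |(x : ℝ) + min (δ / 2) (1 - x) - x| < δ
        rw [add_sub_cancel_left, abs_of_pos h1]
        linarith
    | false =>
      have hb' : (0 : ℝ) < x := hb
      have h1 : 0 < min (δ / 2) (x : ℝ) := lt_min (by linarith) (by linarith)
      have h2 := min_le_left (δ / 2) (x : ℝ)
      have h3 := min_le_right (δ / 2) (x : ℝ)
      refine ⟨⟨(x : ℝ) - min (δ / 2) x, by linarith, by linarith⟩, ?_, ?_⟩
      · show (x : ℝ) - min (δ / 2) x < x
        linarith
      · show |(x : ℝ) - min (δ / 2) x - x| < δ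
        rw [abs_of_neg (by linarith)]
        linarith
  obtain ⟨q, hq, hqQ⟩ := hQ.exists_mem_open hopen hne
  exact ⟨q, hq, hqQ⟩

lemma ae_finite (σ : Measure Rule)
    (hσ : ∀ h : unitInterval, ∫⁻ s, payoff s h ∂σ ≤ maximin) (Q : Set unitInterval)
    (hQ : Q.Countable) : ∀ᵐ s ∂σ, ∀ q ∈ Q, payoff s q < ∞ := by
  rw [ae_ball_iff hQ]
  intro q _
  exact ae_lt_top (measurable_payoff_left q) (ne_top_of_le_ne_top maximin_ne_top (hσ q))

lemma F_unbounded (σ : Measure Rule) [IsProbabilityMeasure σ]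
    (hσ : ∀ h : unitInterval, ∫⁻ s, payoff s h ∂σ ≤ maximin)
    (x : unitInterval) (b : Bool) (hb : cond b (x < 1) (0 < x)) (C : ℝ≥0∞) (hC : C ≠ ∞)
    (h : ∀ n, ∫⁻ s, (F x b n s : ℝ≥0∞) ∂σ ≤ C) : False := by
  have h1 : ∫⁻ s, ⨆ n, (F x b n s : ℝ≥0∞) ∂σ ≤ C := by
    rw [lintegral_iSup]
    · exact iSup_le h
    · exact fun n => measurable_from_top.comp (measurable_F x b n)
    · intro m n hmn s
      exact Nat.cast_le.2 (F_mono x b s hmn)
  have h2 : ∀ᵐ s ∂σ, (⨆ n, (F x b n s : ℝ≥0∞)) < ∞ :=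
    ae_lt_top (Measurable.iSup fun n => measurable_from_top.comp (measurable_F x b n))
      (ne_top_of_le_ne_top hC h1)
  obtain ⟨Q, hQc, hQd⟩ := TopologicalSpace.exists_countable_dense unitInterval
  have h3 := ae_finite σ hσ Q hQc
  obtain ⟨s, hs1, hs2⟩ := (h2.and h3).exists
  obtain ⟨N, hN⟩ := ENNReal.exists_nat_gt hs1.ne
  have hbd : ∀ n, F x b n s ≤ N := by
    intro n
    have : (F x b n s : ℝ≥0∞) ≤ N := (le_iSup (fun n => (F x b n s : ℝ≥0∞)) n).trans hN.le
    exact_mod_cast this
  have hstab : ∃ n0, ∀ n, n0 ≤ n → F x b n s = F x b n0 s := by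
    have hbdd : BddAbove (Set.range fun n => F x b n s) := ⟨N, by rintro _ ⟨n, rfl⟩; exact hbd n⟩
    have hmem := Nat.sSup_mem (Set.range_nonempty fun n => F x b n s) hbdd
    obtain ⟨n0, hn0⟩ := hmem
    refine ⟨n0, fun n hn => le_antisymm ?_ (F_mono x b s hn)⟩
    have hn0' : F x b n0 s = sSup (Set.range fun n => F x b n s) := hn0
    rw [hn0']
    exact le_csSup hbdd ⟨n, rfl⟩
  obtain ⟨n0, hn0⟩ := hstab
  obtain ⟨δ, hδ, htop⟩ := payoff_top_of_F x b n0 s hn0
  obtain ⟨q, hq, hq1, hq2⟩ := exists_side x b hb δ hδ Q hQd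
  exact (hs2 q hq).ne (htop q hq1 hq2)

lemma exists_c (x : unitInterval) :
    ∃ c : ℝ≥0, 0 < c ∧ (0 < x → (c : ℝ) ≤ x) ∧ (x < 1 → (c : ℝ) ≤ 1 - x) := by
  by_cases h0 : 0 < x
  · have h0' : (0 : ℝ) < x := h0
    by_cases h1 : x < 1
    · have h1' : (x : ℝ) < 1 := h1
      refine ⟨⟨min (x : ℝ) (1 - x), le_min (by linarith) (by linarith)⟩, ?_, ?_, ?_⟩
      · exact lt_min h0' (by linarith)
      · exact fun _ => min_le_left _ _
      · exact fun _ => min_le_right _ _
    · exact ⟨⟨x, h0'.le⟩, h0', fun _ => le_refl _, fun h => absurd h h1⟩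
  · refine ⟨1, one_pos, fun h => absurd h h0, fun _ => ?_⟩
    have : ¬ (0 : ℝ) < x := h0
    push_cast
    linarith

section limit

variable {ι : Type*} {L : Filter ι} [L.NeBot] (ν : ι → ProbabilityMeasure unitInterval)
  (hW : Tendsto (fun i => W (ν i : Measure unitInterval)) L (𝓝 maximin))

include hW in
lemma small_side (x : unitInterval) (b : Bool) (hb : cond b (x < 1) (0 < x)) (c0 : ℝ≥0∞)
    (hc0 : c0 ≠ 0) :
    ∃ ρ : ℝ, 0 < ρ ∧ ∀ᶠ i in L, (ν i : Measure unitInterval) (win x b ρ) < c0 := by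
  by_contra hcon
  push Not at hcon
  obtain ⟨σ, hσ⟩ := exists_sigma
  obtain ⟨c, hc, hcx0, hcx1⟩ := exists_c x
  refine F_unbounded (σ : Measure Rule) hσ x b hb (maximin / (c * c0)) ?_ ?_
  · refine (ENNReal.div_lt_top maximin_ne_top ?_).ne
    exact mul_ne_zero (by exact_mod_cast hc.ne') hc0
  · intro n
    refine lintegral_F_le x b n _ _ fun ρ hρ => ?_
    set r : ℝ≥0 := ⟨ρ, hρ.le⟩ with hr
    have hfreq : ∃ᶠ i in L, W (ν i : Measure unitInterval) + ((r * c : ℝ≥0) : ℝ≥0∞) *
        (c0 * ∫⁻ s, G x b ρ n s ∂(σ : Measure Rule)) ≤ ((1 + r : ℝ≥0) : ℝ≥0∞) * maximin := by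
      refine (hcon (ρ / 2) (by linarith)).mono fun i hi => ?_
      refine le_trans ?_ (main_ineq' (σ : Measure Rule) hσ (ν i : Measure unitInterval) x b hb hρ
        r c (le_refl _) hcx0 hcx1 n)
      gcongr
    have hlim : Tendsto (fun i => W (ν i : Measure unitInterval) + ((r * c : ℝ≥0) : ℝ≥0∞) *
        (c0 * ∫⁻ s, G x b ρ n s ∂(σ : Measure Rule))) L (𝓝 (maximin + ((r * c : ℝ≥0) : ℝ≥0∞) *
        (c0 * ∫⁻ s, G x b ρ n s ∂(σ : Measure Rule)))) := hW.add tendsto_const_nhds
    have h1 : maximin + ((r * c : ℝ≥0) : ℝ≥0∞) *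
        (c0 * ∫⁻ s, G x b ρ n s ∂(σ : Measure Rule)) ≤ ((1 + r : ℝ≥0) : ℝ≥0∞) * maximin :=
      isClosed_Iic.mem_of_frequently_of_tendsto hfreq hlim
    rw [ENNReal.coe_add, ENNReal.coe_one, add_mul, one_mul,
      ENNReal.add_le_add_iff_left maximin_ne_top, ENNReal.coe_mul, mul_assoc] at h1
    have hr0 : (r : ℝ≥0∞) ≠ 0 := by
      rw [Ne, ENNReal.coe_eq_zero]
      intro e
      have : ρ = 0 := congrArg NNReal.toReal e
      linarith
    have h2 := (ENNReal.mul_le_mul_iff_right hr0 ENNReal.coe_ne_top).1 h1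
    have hcc : (c : ℝ≥0∞) * c0 ≠ 0 := mul_ne_zero (by exact_mod_cast hc.ne') hc0
    rw [← mul_assoc] at h2
    by_cases hct : c0 = ∞
    · -- `c0 = ∞` is impossible unless the integral is zero
      have hz : ∫⁻ s, G x b ρ n s ∂(σ : Measure Rule) = 0 := by
        by_contra hne
        have : (c : ℝ≥0∞) * c0 * ∫⁻ s, G x b ρ n s ∂(σ : Measure Rule) = ∞ := by
          rw [hct, ENNReal.mul_top (by exact_mod_cast hc.ne'), ENNReal.top_mul hne]
        rw [this] at h2
        exact maximin_ne_top (top_le_iff.1 h2)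
      rw [hz]
      exact zero_le
    · rw [ENNReal.le_div_iff_mul_le (Or.inl hcc)
        (Or.inl (ENNReal.mul_ne_top ENNReal.coe_ne_top hct)), mul_comm]
      exact h2

include hW in
lemma small_side' (x : unitInterval) (b : Bool) (c0 : ℝ≥0∞) (hc0 : c0 ≠ 0) :
    ∃ ρ : ℝ, 0 < ρ ∧ ∀ᶠ i in L, (ν i : Measure unitInterval) (win x b ρ) < c0 := by
  by_cases hb : cond b (x < 1) (0 < x)
  · exact small_side ν hW x b hb c0 hc0
  · cases b with
    | true =>
      have hb' : ¬ (x < 1) := hb
      have hx : x = 1 := le_antisymm x.2.2 (not_lt.1 hb')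
      have hb2 : cond false (x < 1) (0 < x) := by
        show 0 < x
        rw [hx]
        exact zero_lt_one
      obtain ⟨ρ, hρ, h⟩ := small_side ν hW x false hb2 c0 hc0
      refine ⟨ρ, hρ, h.mono fun i hi => lt_of_le_of_lt (measure_mono ?_) hi⟩
      rintro h ⟨h1, h2⟩
      exact ⟨h1, by rw [hx]; exact h.2.2⟩
    | false =>
      have hb' : ¬ (0 < x) := hb
      have hx : x = 0 := le_antisymm (not_lt.1 hb') x.2.1
      have hb2 : cond true (x < 1) (0 < x) := by
        show x < 1
        rw [hx]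
        exact zero_lt_one
      obtain ⟨ρ, hρ, h⟩ := small_side ν hW x true hb2 c0 hc0
      refine ⟨ρ, hρ, h.mono fun i hi => lt_of_le_of_lt (measure_mono ?_) hi⟩
      rintro h ⟨h1, h2⟩
      exact ⟨h1, by rw [hx]; exact h.2.1⟩

include hW in
theorem limit_no_atom (μ : ProbabilityMeasure unitInterval) (hμ : Tendsto ν L (𝓝 μ))
    (x : unitInterval) : (μ : Measure unitInterval) {x} = 0 := by
  by_contra hm
  set m := (μ : Measure unitInterval) {x} with hmdef
  have hmt : m ≠ ∞ := measure_ne_top _ _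
  have hc0 : m / 2 / 2 ≠ 0 := by simp [hm]
  obtain ⟨ρ1, hρ1, h1⟩ := small_side' ν hW x true _ hc0
  obtain ⟨ρ2, hρ2, h2⟩ := small_side' ν hW x false _ hc0
  set U : Set unitInterval := {h | |(h : ℝ) - x| < min ρ1 ρ2} with hU
  have hopen : IsOpen U :=
    isOpen_lt ((continuous_subtype_val.sub continuous_const).abs) continuous_const
  have h3 := ProbabilityMeasure.le_liminf_measure_open_of_tendsto hμ hopen
  have h4 : ∀ᶠ i in L, (ν i : Measure unitInterval) U ≤ m / 2 := by
    filter_upwards [h1, h2] with i h5 h6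
    have hsub : U ⊆ win x true ρ1 ∪ win x false ρ2 := by
      intro h hh
      have hh' : |(h : ℝ) - x| < min ρ1 ρ2 := hh
      rcases le_total x h with h7 | h7
      · exact Or.inl ⟨hh'.trans_le (min_le_left _ _), h7⟩
      · exact Or.inr ⟨hh'.trans_le (min_le_right _ _), h7⟩
    calc (ν i : Measure unitInterval) U
        ≤ (ν i : Measure unitInterval) (win x true ρ1) +
          (ν i : Measure unitInterval) (win x false ρ2) :=
          (measure_mono hsub).trans (measure_union_le _ _)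
      _ ≤ m / 2 / 2 + m / 2 / 2 := add_le_add h5.le h6.le
      _ = m / 2 := ENNReal.add_halves _
  have h5 : liminf (fun i => (ν i : Measure unitInterval) U) L ≤ m / 2 := by
    refine (liminf_le_liminf h4).trans ?_
    simp
  have h6 : m ≤ (μ : Measure unitInterval) U := by
    apply measure_mono
    rw [Set.singleton_subset_iff]
    show |(x : ℝ) - x| < min ρ1 ρ2
    simp [hρ1, hρ2]
  exact absurd ((h6.trans h3).trans h5) (not_le.2 (ENNReal.half_lt_self hm hmt))

end limit

end Pool.Agent.H92HL
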