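import Pool.Agent.H92HL.Value

set_option autoImplicit false

open MeasureTheory Filter Topology
open scoped ENNReal NNReal BigOperators

namespace Pool.Agent.H92HL

/-! ### Inserting space around a point -/

noncomputable def cc (y1 y2 r1 r2 w : ℝ) : ℝ :=
  if w < y1 then w else if w ≤ y1 + r1 then y1 else if w < y2 + r1 then w - r1
  else if w ≤ y2 + (r1 + r2) then y2 else w - (r1 + r2)

noncomputable def SS (y1 y2 r1 r2 h : ℝ) : ℝ :=
  if h < y1 then h else if h ≤ y2 then h + r1 else h + (r1 + r2)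

section geom

variable {y1 y2 r1 r2 w h : ℝ}

lemma cc_mem (hy : y1 ≤ y2) (h1 : 0 ≤ r1) (h2 : 0 ≤ r2) (hy1 : 0 ≤ y1) (hy2 : y2 ≤ 1)
    (hw : 0 ≤ w) (hw1 : w ≤ 1 + (r1 + r2)) : 0 ≤ cc y1 y2 r1 r2 w ∧ cc y1 y2 r1 r2 w ≤ 1 := by
  unfold cc
  split_ifs <;> constructor <;> linarith

lemma SS_mem (hy : y1 ≤ y2) (h1 : 0 ≤ r1) (h2 : 0 ≤ r2) (hh : 0 ≤ h) (hh1 : h ≤ 1) :
    0 ≤ SS y1 y2 r1 r2 h ∧ SS y1 y2 r1 r2 h ≤ 1 + (r1 + r2) := by
  unfold SS
  split_ifs <;> constructor <;> linarith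

lemma lt_SS (hy : y1 ≤ y2) (h1 : 0 ≤ r1) (h2 : 0 ≤ r2) (hlt : cc y1 y2 r1 r2 w < h) :
    w < SS y1 y2 r1 r2 h := by
  unfold cc at hlt
  unfold SS
  split_ifs at hlt ⊢ <;> linarith

lemma SS_lt (hy : y1 ≤ y2) (h1 : 0 ≤ r1) (h2 : 0 ≤ r2) (hlt : h < cc y1 y2 r1 r2 w) :
    SS y1 y2 r1 r2 h < w := by
  unfold cc at hlt
  unfold SS
  split_ifs at hlt ⊢ <;> linarith

lemma dist_cc (hy : y1 ≤ y2) (h1 : 0 ≤ r1) (h2 : 0 ≤ r2) :
    |cc y1 y2 r1 r2 w - h| ≤ |w - SS y1 y2 r1 r2 h| := by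
  have e1 := le_abs_self (w - SS y1 y2 r1 r2 h)
  have e2 := neg_le_abs (w - SS y1 y2 r1 r2 h)
  rw [abs_le]
  generalize |w - SS y1 y2 r1 r2 h| = z at *
  unfold cc SS at *
  split_ifs at e1 e2 ⊢ <;> constructor <;> linarith

lemma dist_left (hy : y1 ≤ y2) (h1 : 0 ≤ r1) (h2 : 0 ≤ r2) (hh1 : y1 ≤ h) (hh2 : h ≤ y2)
    (hw : w < y1) : |cc y1 y2 r1 r2 w - h| + r1 ≤ |w - SS y1 y2 r1 r2 h| := by
  have e1 : cc y1 y2 r1 r2 w = w := by unfold cc; rw [if_pos hw]
  have e2 : SS y1 y2 r1 r2 h = h + r1 := by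
    unfold SS; rw [if_neg (not_lt.2 hh1), if_pos hh2]
  rw [e1, e2, abs_of_neg (by linarith), abs_of_neg (by linarith)]
  linarith

lemma dist_right (hy : y1 ≤ y2) (h1 : 0 ≤ r1) (h2 : 0 ≤ r2) (hh1 : y1 ≤ h) (hh2 : h ≤ y2)
    (hw : y2 + (r1 + r2) < w) : |cc y1 y2 r1 r2 w - h| + r2 ≤ |w - SS y1 y2 r1 r2 h| := by
  have e1 : cc y1 y2 r1 r2 w = w - (r1 + r2) := by
    unfold cc
    rw [if_neg (by linarith), if_neg (by linarith), if_neg (by linarith), if_neg (by linarith)]
  have e2 : SS y1 y2 r1 r2 h = h + r1 := by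
    unfold SS; rw [if_neg (not_lt.2 hh1), if_pos hh2]
  rw [e1, e2, abs_of_pos (by linarith), abs_of_pos (by linarith)]
  linarith

end geom

/-! ### The maps on `[0,1]` -/

noncomputable def Y1 (x : unitInterval) (ρ : ℝ) : ℝ := max ((x : ℝ) - ρ) 0
noncomputable def Y2 (x : unitInterval) (ρ : ℝ) : ℝ := min ((x : ℝ) + ρ) 1

noncomputable def aM (x : unitInterval) (ρ : ℝ) (r : ℝ≥0) (g : unitInterval) : unitInterval :=
  Set.projIcc 0 1 zero_le_one
    (cc (Y1 x ρ) (Y2 x ρ) ((x : ℝ) * r) ((1 - (x : ℝ)) * r) ((1 + (r : ℝ)) * g))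

noncomputable def tM (x : unitInterval) (ρ : ℝ) (r : ℝ≥0) (h : unitInterval) : unitInterval :=
  Set.projIcc 0 1 zero_le_one
    (SS (Y1 x ρ) (Y2 x ρ) ((x : ℝ) * r) ((1 - (x : ℝ)) * r) h / (1 + (r : ℝ)))

section maps

variable (x : unitInterval) {ρ : ℝ} (hρ : 0 < ρ) (r : ℝ≥0)

lemma xr_nonneg : 0 ≤ (x : ℝ) * r := mul_nonneg x.2.1 r.2
lemma xr'_nonneg : 0 ≤ (1 - (x : ℝ)) * r := mul_nonneg (by have := x.2.2; linarith) r.2
lemma xr_add : (x : ℝ) * r + (1 - (x : ℝ)) * r = r := by ring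
lemma Y1_nonneg : 0 ≤ Y1 x ρ := le_max_right _ _
lemma Y2_le_one : Y2 x ρ ≤ 1 := min_le_right _ _

include hρ in
lemma Y1_le_x : Y1 x ρ ≤ x := max_le (by linarith) x.2.1
include hρ in
lemma x_le_Y2 : (x : ℝ) ≤ Y2 x ρ := le_min (by linarith) x.2.2
include hρ in
lemma Y1_le_Y2 : Y1 x ρ ≤ Y2 x ρ := (Y1_le_x x hρ).trans (x_le_Y2 x hρ)

include hρ in
lemma coe_aM (g : unitInterval) : (aM x ρ r g : ℝ) =
    cc (Y1 x ρ) (Y2 x ρ) ((x : ℝ) * r) ((1 - (x : ℝ)) * r) ((1 + (r : ℝ)) * g) := by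
  unfold aM
  have h0 : (0:ℝ) ≤ r := r.2
  have hg0 := g.2.1
  have hg1 := g.2.2
  have := cc_mem (w := (1 + (r : ℝ)) * g) (Y1_le_Y2 x hρ) (xr_nonneg x r) (xr'_nonneg x r)
    (Y1_nonneg x) (Y2_le_one x) (by positivity)
    (by rw [xr_add]
        have : (1 + (r:ℝ)) * g ≤ (1 + (r:ℝ)) * 1 := by gcongr
        linarith)
  rw [Set.projIcc_of_mem zero_le_one this]

include hρ in
lemma coe_tM (h : unitInterval) : (tM x ρ r h : ℝ) =
    SS (Y1 x ρ) (Y2 x ρ) ((x : ℝ) * r) ((1 - (x : ℝ)) * r) h / (1 + (r : ℝ)) := by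
  unfold tM
  have h0 : (0:ℝ) ≤ r := r.2
  have := SS_mem (h := (h : ℝ)) (Y1_le_Y2 x hρ) (xr_nonneg x r) (xr'_nonneg x r) h.2.1 h.2.2
  rw [xr_add] at this
  rw [Set.projIcc_of_mem zero_le_one]
  constructor
  · exact div_nonneg this.1 (by positivity)
  · rw [div_le_one (by positivity)]
    exact this.2

lemma measurable_tM : Measurable (tM x ρ r) := by
  unfold tM
  refine continuous_projIcc.measurable.comp ?_
  refine Measurable.div_const ?_ _
  unfold SS
  refine Measurable.ite ?_ ?_ (Measurable.ite ?_ ?_ ?_)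
  · exact measurableSet_lt measurable_subtype_coe measurable_const
  · exact measurable_subtype_coe
  · exact measurableSet_le measurable_subtype_coe measurable_const
  · exact measurable_subtype_coe.add_const _
  · exact measurable_subtype_coe.add_const _

include hρ in
lemma aM_lt (g h : unitInterval) (hlt : aM x ρ r g < h) : g < tM x ρ r h := by
  have h0 : (0:ℝ) ≤ r := r.2
  have h1 : (aM x ρ r g : ℝ) < h := hlt
  rw [coe_aM x hρ] at h1
  have h2 := lt_SS (Y1_le_Y2 x hρ) (xr_nonneg x r) (xr'_nonneg x r) h1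
  have h3 : (g : ℝ) < tM x ρ r h := by
    rw [coe_tM x hρ, lt_div_iff₀ (by positivity)]
    linarith
  exact h3

include hρ in
lemma lt_aM (g h : unitInterval) (hlt : h < aM x ρ r g) : tM x ρ r h < g := by
  have h0 : (0:ℝ) ≤ r := r.2
  have h1 : (h : ℝ) < aM x ρ r g := hlt
  rw [coe_aM x hρ] at h1
  have h2 := SS_lt (Y1_le_Y2 x hρ) (xr_nonneg x r) (xr'_nonneg x r) h1
  have h3 : (tM x ρ r h : ℝ) < g := by
    rw [coe_tM x hρ, div_lt_iff₀ (by positivity)]
    linarith
  exact h3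

lemma abs_scale (g S : ℝ) : (1 + (r : ℝ)) * |g - S / (1 + r)| = |(1 + (r:ℝ)) * g - S| := by
  have h0 : (0:ℝ) ≤ r := r.2
  have h1 : (0:ℝ) < 1 + r := by positivity
  rw [← abs_of_pos h1, ← abs_mul, abs_of_pos h1]
  congr 1
  field_simp

include hρ in
lemma dist_aM (g h : unitInterval) :
    nndist (aM x ρ r g) h ≤ (1 + r) * nndist g (tM x ρ r h) := by
  rw [← NNReal.coe_le_coe, NNReal.coe_mul, coe_nndist_I, coe_nndist_I, coe_aM x hρ, coe_tM x hρ]
  push_cast
  rw [abs_scale]
  exact dist_cc (Y1_le_Y2 x hρ) (xr_nonneg x r) (xr'_nonneg x r)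

include hρ in
lemma aM_self : aM x ρ r x = x := by
  apply Subtype.ext
  rw [coe_aM x hρ]
  have h1 := Y1_le_x x hρ
  have h2 := x_le_Y2 x hρ
  have h3 := xr_nonneg x r
  have h4 := xr'_nonneg x r
  unfold cc
  split_ifs <;> linarith

end maps

/-! ### The branch of a rule at a point -/

/-- the continuation on the branch at `x`, where the guess `x` is answered `b` -/
noncomputable def bt (x : unitInterval) (b : Bool) (s : Rule) : Rule :=
  if s [] < x then tl s true else if x < s [] then tl s false else tl s b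

/-- number of the first `n` guesses on the branch that differ from `x` -/
noncomputable def F (x : unitInterval) (b : Bool) : ℕ → Rule → ℕ
  | 0, _ => 0
  | n + 1, s => (if s [] = x then 0 else 1) + F x b n (bt x b s)

/-- the first `n` guesses on the branch are `x` or at distance more than `2 * ρ` from `x` -/
def D (x : unitInterval) (b : Bool) (ρ : ℝ) : ℕ → Rule → Prop
  | 0, _ => True
  | n + 1, s => (s [] = x ∨ 2 * ρ < |(s [] : ℝ) - x|) ∧ D x b ρ n (bt x b s)

/-- `h` is strictly on side `b` of `x` -/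
def side (x : unitInterval) (b : Bool) (h : unitInterval) : Prop :=
  cond b (x < h) (h < x)

lemma measurable_bt (x : unitInterval) (b : Bool) : Measurable (bt x b) := by
  unfold bt
  have h0 : Measurable fun s : Rule => s [] := by fun_prop
  exact Measurable.ite (measurableSet_lt h0 measurable_const) (measurable_tl _)
    (Measurable.ite (measurableSet_lt measurable_const h0) (measurable_tl _) (measurable_tl _))

lemma measurable_F (x : unitInterval) (b : Bool) (n : ℕ) : Measurable (F x b n) := by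
  have h0 : Measurable fun s : Rule => s [] := by fun_prop
  induction n with
  | zero => exact measurable_const
  | succ n ih =>
    exact (Measurable.ite (measurableSet_eq_fun h0 measurable_const) measurable_const
      measurable_const).add (ih.comp (measurable_bt x b))

lemma measurableSet_D (x : unitInterval) (b : Bool) (ρ : ℝ) (n : ℕ) :
    MeasurableSet {s | D x b ρ n s} := by
  have h0 : Measurable fun s : Rule => s [] := by fun_prop
  induction n with
  | zero => simp [D]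
  | succ n ih =>
    have : {s | D x b ρ (n + 1) s} = ({s : Rule | s [] = x} ∪
        {s : Rule | 2 * ρ < |(s [] : ℝ) - x|}) ∩ (bt x b) ⁻¹' {s | D x b ρ n s} := by
      ext s
      simp [D]
    rw [this]
    refine ((measurableSet_eq_fun h0 measurable_const).union ?_).inter (measurable_bt x b ih)
    exact measurableSet_lt measurable_const
      ((measurable_subtype_coe.comp h0).sub_const _).abs

open Classical in
/-- `F` on the event `D` -/
noncomputable def G (x : unitInterval) (b : Bool) (ρ : ℝ) (n : ℕ) (s : Rule) : ℝ≥0∞ :=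
  if D x b ρ n s then (F x b n s : ℝ≥0∞) else 0

lemma measurable_G (x : unitInterval) (b : Bool) (ρ : ℝ) (n : ℕ) : Measurable (G x b ρ n) := by
  unfold G
  exact Measurable.ite (measurableSet_D x b ρ n)
    (measurable_from_top.comp (measurable_F x b n)) measurable_const

/-! ### The main inequality -/

section ineq

variable (x : unitInterval) {ρ : ℝ} (hρ : 0 < ρ) (r c : ℝ≥0) (hr : (r : ℝ) ≤ ρ)
  (hc0 : 0 < x → (c : ℝ) ≤ x) (hc1 : x < 1 → (c : ℝ) ≤ 1 - x)

include hρ hr in
lemma w_lt (g : unitInterval) (hg : (g : ℝ) < x - 2 * ρ) : (1 + (r:ℝ)) * g < Y1 x ρ := by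
  have h0 : (0:ℝ) ≤ r := r.2
  have hx1 := x.2.2
  have hg0 := g.2.1
  have hg1 := g.2.2
  refine lt_of_lt_of_le ?_ (le_max_left _ _)
  have : (r : ℝ) * g ≤ r * 1 := by gcongr
  linarith

include hρ hr in
lemma w_gt (g : unitInterval) (hg : (x : ℝ) + 2 * ρ < g) :
    Y2 x ρ + ((x : ℝ) * r + (1 - (x:ℝ)) * r) < (1 + (r:ℝ)) * g := by
  have h0 : (0:ℝ) ≤ r := r.2
  have hx0 := x.2.1
  have hg0 := g.2.1
  rw [xr_add]
  have h1 : Y2 x ρ ≤ x + ρ := min_le_left _ _
  have : 0 ≤ (r : ℝ) * g := by positivity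
  linarith

include hρ hr hc0 hc1 in
lemma cost (g h : unitInterval) (hh : |(h : ℝ) - x| < ρ) (hg : g = x ∨ 2 * ρ < |(g : ℝ) - x|) :
    (nndist (aM x ρ r g) h : ℝ≥0∞) + ((r * c : ℝ≥0) : ℝ≥0∞) * (if g = x then 0 else 1 : ℕ) ≤
      ((1 + r : ℝ≥0) : ℝ≥0∞) * (nndist g (tM x ρ r h) : ℝ≥0∞) := by
  have h0 : (0:ℝ) ≤ r := r.2
  have hc : (0:ℝ) ≤ c := c.2
  split_ifs with hgx
  · simp only [Nat.cast_zero, mul_zero, add_zero]
    exact_mod_cast dist_aM x hρ r g h
  · have hg' := hg.resolve_left hgx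
    rw [abs_lt] at hh
    have hy1 : Y1 x ρ ≤ h := max_le (by linarith) h.2.1
    have hy2 : (h : ℝ) ≤ Y2 x ρ := le_min (by linarith) h.2.2
    have hx0 := x.2.1
    have hx1 := x.2.2
    have hg0 := g.2.1
    have hg1 := g.2.2
    have key : nndist (aM x ρ r g) h + r * c ≤ (1 + r) * nndist g (tM x ρ r h) := by
      rw [← NNReal.coe_le_coe, NNReal.coe_add, NNReal.coe_mul, NNReal.coe_mul, coe_nndist_I,
        coe_nndist_I, coe_aM x hρ, coe_tM x hρ]
      push_cast
      rw [abs_scale]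
      rcases lt_abs.1 hg' with h1 | h1
      · have h2 := dist_right (Y1_le_Y2 x hρ) (xr_nonneg x r) (xr'_nonneg x r) hy1 hy2
          (w_gt x hρ r hr g (by linarith))
        have h3 : x < 1 := by
          have : (x : ℝ) < 1 := by linarith
          exact this
        have h4 : (r : ℝ) * c ≤ (1 - x) * r := by
          have := mul_le_mul_of_nonneg_left (hc1 h3) h0
          linarith
        linarith
      · have h2 := dist_left (Y1_le_Y2 x hρ) (xr_nonneg x r) (xr'_nonneg x r) hy1 hy2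
          (w_lt x hρ r hr g (by linarith))
        have h3 : 0 < x := by
          have : (0 : ℝ) < x := by linarith
          exact this
        have h4 : (r : ℝ) * c ≤ x * r := by
          have := mul_le_mul_of_nonneg_left (hc0 h3) h0
          linarith
        linarith
    simp only [Nat.cast_one, mul_one]
    exact_mod_cast key

include hρ hr in
lemma order (b : Bool) (s : Rule) (h : unitInterval) (hh : |(h : ℝ) - x| < ρ) (hb : side x b h)
    (hg : s [] = x ∨ 2 * ρ < |(s [] : ℝ) - x|) :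
    (aM x ρ r (s []) < h ∧ bt x b s = tl s true) ∨
    (h < aM x ρ r (s []) ∧ bt x b s = tl s false) := by
  have h0 : (0:ℝ) ≤ r := r.2
  rw [abs_lt] at hh
  have hy1 : Y1 x ρ ≤ h := max_le (by linarith) h.2.1
  have hy2 : (h : ℝ) ≤ Y2 x ρ := le_min (by linarith) h.2.2
  rcases hg with hg | hg
  · rw [hg, aM_self x hρ]
    unfold bt
    rw [hg, if_neg (lt_irrefl _), if_neg (lt_irrefl _)]
    cases b with
    | true => exact Or.inl ⟨hb, rfl⟩
    | false => exact Or.inr ⟨hb, rfl⟩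
  · rcases lt_abs.1 hg with h1 | h1
    · right
      have hgt := w_gt x hρ r hr (s []) (by linarith)
      have e3 := xr_nonneg x r
      have e4 := xr'_nonneg x r
      have hyy := Y1_le_Y2 x hρ
      constructor
      · have : (h : ℝ) < aM x ρ r (s []) := by
          rw [coe_aM x hρ]
          unfold cc
          rw [if_neg (by linarith), if_neg (by linarith), if_neg (by linarith),
            if_neg (by linarith)]
          linarith
        exact this
      · have h2 : x < s [] := by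
          have : (x : ℝ) < s [] := by linarith
          exact this
        unfold bt
        rw [if_neg h2.not_gt, if_pos h2]
    · left
      have hlt := w_lt x hρ r hr (s []) (by linarith)
      constructor
      · have : (aM x ρ r (s []) : ℝ) < h := by
          rw [coe_aM x hρ]
          unfold cc
          rw [if_pos hlt]
          linarith
        exact this
      · have h2 : s [] < x := by
          have : (s [] : ℝ) < x := by linarith
          exact this
        unfold bt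
        rw [if_pos h2]

include hρ in
lemma basic (s : Rule) (h : unitInterval) :
    payoff (fun l => aM x ρ r (s l)) h ≤ ((1 + r : ℝ≥0) : ℝ≥0∞) * payoff s (tM x ρ r h) :=
  sim (aM x ρ r) h (tM x ρ r h) (1 + r) (fun g => aM_lt x hρ r g h) (fun g => lt_aM x hρ r g h)
    (fun g => dist_aM x hρ r g h) s

include hρ hr hc0 hc1 in
lemma gain (b : Bool) (n : ℕ) (s : Rule) (h : unitInterval) (hh : |(h : ℝ) - x| < ρ)
    (hb : side x b h) (hD : D x b ρ n s) :
    payoff (fun l => aM x ρ r (s l)) h + ((r * c : ℝ≥0) : ℝ≥0∞) * (F x b n s : ℝ≥0∞) ≤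
      ((1 + r : ℝ≥0) : ℝ≥0∞) * payoff s (tM x ρ r h) := by
  induction n generalizing s with
  | zero =>
    simp only [F, Nat.cast_zero, mul_zero, add_zero]
    exact basic x hρ r s h
  | succ n ih =>
    obtain ⟨hg, hD'⟩ := hD
    have hcost := cost x hρ r c hr hc0 hc1 (s []) h hh hg
    have hIH := ih (bt x b s) hD'
    rcases order x hρ r hr b s h hh hb hg with ⟨h1, h2⟩ | ⟨h1, h2⟩
    · rw [payoff_lt (fun l => aM x ρ r (s l)) h h1,
        payoff_lt s (tM x ρ r h) (aM_lt x hρ r _ _ h1), mul_add]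
      rw [F, Nat.cast_add, mul_add]
      rw [h2] at hIH ⊢
      calc _ = ((nndist (aM x ρ r (s [])) h : ℝ≥0∞) + ((r * c : ℝ≥0) : ℝ≥0∞) *
            (if s [] = x then 0 else 1 : ℕ)) +
            (payoff (fun l => aM x ρ r (tl s true l)) h +
            ((r * c : ℝ≥0) : ℝ≥0∞) * (F x b n (tl s true) : ℝ≥0∞)) := by
              rw [add_add_add_comm]; rfl
        _ ≤ _ := add_le_add hcost hIH
    · rw [payoff_gt (fun l => aM x ρ r (s l)) h h1,
        payoff_gt s (tM x ρ r h) (lt_aM x hρ r _ _ h1), mul_add]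
      rw [F, Nat.cast_add, mul_add]
      rw [h2] at hIH ⊢
      calc _ = ((nndist (aM x ρ r (s [])) h : ℝ≥0∞) + ((r * c : ℝ≥0) : ℝ≥0∞) *
            (if s [] = x then 0 else 1 : ℕ)) +
            (payoff (fun l => aM x ρ r (tl s false l)) h +
            ((r * c : ℝ≥0) : ℝ≥0∞) * (F x b n (tl s false) : ℝ≥0∞)) := by
              rw [add_add_add_comm]; rfl
        _ ≤ _ := add_le_add hcost hIH

end ineq

end Pool.Agent.H92HL
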