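import Pool.Agent.H92HL.Main

set_option autoImplicit false

open MeasureTheory Filter Topology
open scoped ENNReal NNReal BigOperators

namespace Pool.Agent.H92HL

/-- the open one-sided window -/
def winO (x : unitInterval) (b : Bool) (ρ : ℝ) : Set unitInterval :=
  {h | |(h : ℝ) - x| < ρ ∧ side x b h}

/-- the half-closed one-sided window -/
def win (x : unitInterval) (b : Bool) (ρ : ℝ) : Set unitInterval :=
  {h | |(h : ℝ) - x| < ρ ∧ cond b (x ≤ h) (h ≤ x)}

lemma measurableSet_winO (x : unitInterval) (b : Bool) (ρ : ℝ) : MeasurableSet (winO x b ρ) := by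
  unfold winO side
  refine MeasurableSet.inter ?_ ?_
  · exact measurableSet_lt (measurable_subtype_coe.sub_const _).abs measurable_const
  · cases b with
    | true => exact measurableSet_lt measurable_const measurable_id
    | false => exact measurableSet_lt measurable_id measurable_const

lemma main_ineq (σ : Measure Rule) [IsProbabilityMeasure σ]
    (hσ : ∀ h : unitInterval, ∫⁻ s, payoff s h ∂σ ≤ maximin)
    (ν : Measure unitInterval) [IsProbabilityMeasure ν]
    (x : unitInterval) (b : Bool) {ρ : ℝ} (hρ : 0 < ρ) (r c : ℝ≥0) (hr : (r : ℝ) ≤ ρ)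
    (hc0 : 0 < x → (c : ℝ) ≤ x) (hc1 : x < 1 → (c : ℝ) ≤ 1 - x) (n : ℕ) :
    W ν + ((r * c : ℝ≥0) : ℝ≥0∞) * (ν (winO x b ρ) * ∫⁻ s, G x b ρ n s ∂σ) ≤
      ((1 + r : ℝ≥0) : ℝ≥0∞) * maximin := by
  have hpt : ∀ s : Rule, ∀ h : unitInterval,
      payoff (fun l => aM x ρ r (s l)) h +
        (((r * c : ℝ≥0) : ℝ≥0∞) * G x b ρ n s) * (winO x b ρ).indicator 1 h ≤
      ((1 + r : ℝ≥0) : ℝ≥0∞) * payoff s (tM x ρ r h) := by
    intro s h
    by_cases hh : h ∈ winO x b ρ
    · rw [Set.indicator_of_mem hh, Pi.one_apply, mul_one]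
      unfold G
      split_ifs with hD
      · exact gain x hρ r c hr hc0 hc1 b n s h hh.1 hh.2 hD
      · rw [mul_zero, add_zero]
        exact basic x hρ r s h
    · rw [Set.indicator_of_notMem hh, mul_zero, add_zero]
      exact basic x hρ r s h
  have h1 : ∀ s : Rule, W ν + ((r * c : ℝ≥0) : ℝ≥0∞) * (ν (winO x b ρ) * G x b ρ n s) ≤
      ∫⁻ h, ((1 + r : ℝ≥0) : ℝ≥0∞) * payoff s (tM x ρ r h) ∂ν := by
    intro s
    calc _ ≤ ∫⁻ h, payoff (fun l => aM x ρ r (s l)) h ∂ν +
          ∫⁻ h, (((r * c : ℝ≥0) : ℝ≥0∞) * G x b ρ n s) * (winO x b ρ).indicator 1 h ∂ν := by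
            gcongr
            · exact W_le _ _
            · rw [lintegral_const_mul _ (measurable_one.indicator (measurableSet_winO x b ρ)),
                lintegral_indicator_one (measurableSet_winO x b ρ)]
              rw [mul_assoc, mul_comm (G x b ρ n s)]
      _ = ∫⁻ h, (payoff (fun l => aM x ρ r (s l)) h +
          (((r * c : ℝ≥0) : ℝ≥0∞) * G x b ρ n s) * (winO x b ρ).indicator 1 h) ∂ν :=
            (lintegral_add_left (measurable_payoff_right _) _).symm
      _ ≤ _ := lintegral_mono fun h => hpt s h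
  have hm : Measurable fun p : Rule × unitInterval =>
      ((1 + r : ℝ≥0) : ℝ≥0∞) * payoff p.1 (tM x ρ r p.2) :=
    (measurable_payoff.comp (measurable_fst.prodMk
      ((measurable_tM x r).comp measurable_snd))).const_mul _
  calc _ = ∫⁻ s, (W ν + ((r * c : ℝ≥0) : ℝ≥0∞) * (ν (winO x b ρ) * G x b ρ n s)) ∂σ := by
        rw [lintegral_add_left measurable_const, lintegral_const_mul, lintegral_const_mul]
        · simp
        · exact measurable_G x b ρ n
        · exact (measurable_G x b ρ n).const_mul _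
    _ ≤ ∫⁻ s, ∫⁻ h, ((1 + r : ℝ≥0) : ℝ≥0∞) * payoff s (tM x ρ r h) ∂ν ∂σ :=
        lintegral_mono fun s => h1 s
    _ = ∫⁻ h, ∫⁻ s, ((1 + r : ℝ≥0) : ℝ≥0∞) * payoff s (tM x ρ r h) ∂σ ∂ν :=
        lintegral_lintegral_swap hm.aemeasurable
    _ ≤ ∫⁻ _, ((1 + r : ℝ≥0) : ℝ≥0∞) * maximin ∂ν := by
        refine lintegral_mono fun h => ?_
        rw [lintegral_const_mul _ (measurable_payoff_left _)]
        gcongr
        exact hσ _
    _ = _ := by simp

/-! ### Small perturbation towards an endpoint -/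

/-- the endpoint of side `b` -/
noncomputable def endp (b : Bool) : ℝ := if b then 1 else 0

noncomputable def th (b : Bool) (η : ℝ≥0) (h : unitInterval) : unitInterval :=
  Set.projIcc 0 1 zero_le_one (((h : ℝ) + η * endp b) / (1 + η))

noncomputable def ath (b : Bool) (η : ℝ≥0) (g : unitInterval) : unitInterval :=
  Set.projIcc 0 1 zero_le_one ((1 + (η : ℝ)) * g - η * endp b)

lemma endp_nonneg (b : Bool) : 0 ≤ endp b := by unfold endp; split_ifs <;> norm_num
lemma endp_le (b : Bool) : endp b ≤ 1 := by unfold endp; split_ifs <;> norm_num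

lemma coe_th (b : Bool) (η : ℝ≥0) (h : unitInterval) :
    (th b η h : ℝ) = ((h : ℝ) + η * endp b) / (1 + η) := by
  unfold th
  have h0 : (0:ℝ) ≤ η := η.2
  have h1 := endp_nonneg b
  have h2 := endp_le b
  have h3 := h.2.1
  have h4 := h.2.2
  rw [Set.projIcc_of_mem zero_le_one]
  constructor
  · positivity
  · rw [div_le_one (by positivity)]
    have : (η : ℝ) * endp b ≤ η * 1 := by gcongr
    linarith

lemma measurable_th (b : Bool) (η : ℝ≥0) : Measurable (th b η) := by
  unfold th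
  refine continuous_projIcc.measurable.comp ?_
  fun_prop

lemma proj_lt (u : ℝ) (h : unitInterval) (hlt : Set.projIcc 0 1 zero_le_one u < h) : u < h := by
  have h1 : (Set.projIcc (0:ℝ) 1 zero_le_one u : ℝ) < h := hlt
  rw [Set.coe_projIcc] at h1
  have h4 := h.2.2
  have h2 := (le_max_right 0 (min 1 u)).trans_lt h1
  rcases min_lt_iff.1 h2 with h5 | h5
  · linarith
  · exact h5

lemma lt_proj (u : ℝ) (h : unitInterval) (hlt : h < Set.projIcc 0 1 zero_le_one u) : h < u := by
  have h1 : (h : ℝ) < (Set.projIcc (0:ℝ) 1 zero_le_one u : ℝ) := hlt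
  rw [Set.coe_projIcc] at h1
  have h4 := h.2.1
  rcases lt_max_iff.1 h1 with h5 | h5
  · linarith
  · exact (lt_min_iff.1 h5).2

lemma proj_dist (u : ℝ) (h : unitInterval) :
    |(Set.projIcc (0:ℝ) 1 zero_le_one u : ℝ) - h| ≤ |u - h| := by
  rw [Set.coe_projIcc]
  have h3 := h.2.1
  have h4 := h.2.2
  have e1 := le_abs_self (u - h)
  have e2 := neg_le_abs (u - h)
  rw [abs_le]
  constructor
  · rcases le_total u 1 with h5 | h5
    · rw [min_eq_right h5]
      have := le_max_right 0 u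
      linarith
    · rw [min_eq_left h5, max_eq_right zero_le_one]
      have := abs_nonneg (u - h)
      linarith
  · have h6 : min 1 u ≤ u := min_le_right _ _
    rcases le_total 0 (min 1 u) with h5 | h5
    · rw [max_eq_right h5]
      linarith
    · rw [max_eq_left h5]
      have := abs_nonneg (u - h)
      linarith

lemma basic_th (b : Bool) (η : ℝ≥0) (s : Rule) (h : unitInterval) :
    payoff (fun l => ath b η (s l)) h ≤ ((1 + η : ℝ≥0) : ℝ≥0∞) * payoff s (th b η h) := by
  have h0 : (0:ℝ) ≤ η := η.2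
  have hpos : (0:ℝ) < 1 + η := by positivity
  refine sim (ath b η) h (th b η h) (1 + η) ?_ ?_ ?_ s
  · intro g hg
    have h1 := proj_lt _ _ hg
    have h2 : (g : ℝ) < th b η h := by
      rw [coe_th, lt_div_iff₀ hpos]
      linarith
    exact h2
  · intro g hg
    have h1 := lt_proj _ _ hg
    have h2 : (th b η h : ℝ) < g := by
      rw [coe_th, div_lt_iff₀ hpos]
      linarith
    exact h2
  · intro g
    rw [← NNReal.coe_le_coe, NNReal.coe_mul, coe_nndist_I, coe_nndist_I, coe_th]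
    push_cast
    rw [abs_scale η]
    refine (proj_dist _ _).trans (le_of_eq ?_)
    congr 1
    ring

lemma W_map (b : Bool) (η : ℝ≥0) (ν : Measure unitInterval) :
    W ν ≤ ((1 + η : ℝ≥0) : ℝ≥0∞) * W (ν.map (th b η)) := by
  unfold W
  rw [ENNReal.mul_iInf_of_ne]
  · refine le_iInf fun s => ?_
    refine (iInf_le _ (fun l => ath b η (s l))).trans ?_
    have e : ∫⁻ h, ((1 + η : ℝ≥0) : ℝ≥0∞) * payoff s (th b η h) ∂ν =
        ((1 + η : ℝ≥0) : ℝ≥0∞) * ∫⁻ h, payoff s (th b η h) ∂ν :=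
      lintegral_const_mul _ ((measurable_payoff_right s).comp (measurable_th b η))
    rw [lintegral_map (measurable_payoff_right s) (measurable_th b η), ← e]
    exact lintegral_mono fun h => basic_th b η s h
  · rw [Ne, ENNReal.coe_eq_zero]
    positivity
  · exact ENNReal.coe_ne_top

lemma win_subset (x : unitInterval) (b : Bool) (hb : cond b (x < 1) (0 < x)) (ρ : ℝ) (η : ℝ≥0)
    (hη : 0 < η) (hηρ : (η : ℝ) ≤ ρ / 2) : win x b (ρ / 2) ⊆ (th b η) ⁻¹' (winO x b ρ) := by
  rintro h ⟨h1, h2⟩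
  have h0 : (0:ℝ) < η := hη
  have hpos : (0:ℝ) < 1 + η := by positivity
  have hh0 := h.2.1
  have hh1 := h.2.2
  have hx0 := x.2.1
  have hx1 := x.2.2
  have e0 := endp_nonneg b
  have e1 := endp_le b
  have key : (th b η h : ℝ) - h = η * (endp b - h) / (1 + η) := by
    rw [coe_th]; field_simp; ring
  refine ⟨?_, ?_⟩
  · have h3 : |(th b η h : ℝ) - h| ≤ η := by
      rw [key, abs_div, abs_mul, abs_of_pos h0, abs_of_pos hpos]
      rw [div_le_iff₀ hpos]
      have : |endp b - h| ≤ 1 := by rw [abs_le]; constructor <;> linarith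
      nlinarith [mul_le_mul_of_nonneg_left this h0.le]
    calc |(th b η h : ℝ) - x| = |((th b η h : ℝ) - h) + (h - x)| := by congr 1; ring
      _ ≤ |(th b η h : ℝ) - h| + |(h : ℝ) - x| := abs_add_le _ _
      _ < ρ := by linarith
  · cases b with
    | true =>
      have h2' : (x : ℝ) ≤ h := h2
      have hb' : (x : ℝ) < 1 := hb
      have e : endp true = 1 := by simp [endp]
      rw [e] at key
      have : (x : ℝ) < th true η h := by
        rcases hh1.lt_or_eq with h5 | h5
        · have : 0 < η * (1 - (h:ℝ)) / (1 + η) := by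
            apply div_pos _ hpos
            apply mul_pos h0
            linarith
          linarith
        · rw [h5] at key
          have : (η:ℝ) * (1 - 1) / (1 + η) = 0 := by simp
          linarith
      exact this
    | false =>
      have h2' : (h : ℝ) ≤ x := h2
      have hb' : (0 : ℝ) < x := hb
      have e : endp false = 0 := by simp [endp]
      rw [e] at key
      have : (th false η h : ℝ) < x := by
        rcases hh0.lt_or_eq with h5 | h5
        · have : η * (0 - (h:ℝ)) / (1 + η) < 0 := by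
            apply div_neg_of_neg_of_pos _ hpos
            have : 0 < η * (h : ℝ) := mul_pos h0 h5
            linarith
          linarith
        · rw [← h5] at key
          have : (η:ℝ) * (0 - 0) / (1 + η) = 0 := by simp
          linarith
      exact this

lemma main_ineq' (σ : Measure Rule) [IsProbabilityMeasure σ]
    (hσ : ∀ h : unitInterval, ∫⁻ s, payoff s h ∂σ ≤ maximin)
    (ν : Measure unitInterval) [IsProbabilityMeasure ν]
    (x : unitInterval) (b : Bool) (hb : cond b (x < 1) (0 < x))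
    {ρ : ℝ} (hρ : 0 < ρ) (r c : ℝ≥0) (hr : (r : ℝ) ≤ ρ)
    (hc0 : 0 < x → (c : ℝ) ≤ x) (hc1 : x < 1 → (c : ℝ) ≤ 1 - x) (n : ℕ) :
    W ν + ((r * c : ℝ≥0) : ℝ≥0∞) * (ν (win x b (ρ / 2)) * ∫⁻ s, G x b ρ n s ∂σ) ≤
      ((1 + r : ℝ≥0) : ℝ≥0∞) * maximin := by
  have key : ∀ η : ℝ≥0, 0 < η → (η : ℝ) ≤ ρ / 2 →
      W ν + ((r * c : ℝ≥0) : ℝ≥0∞) * (ν (win x b (ρ / 2)) * ∫⁻ s, G x b ρ n s ∂σ) ≤
      ((1 + η : ℝ≥0) : ℝ≥0∞) * (((1 + r : ℝ≥0) : ℝ≥0∞) * maximin) := by
    intro η hη hηρ
    have hpm : IsProbabilityMeasure (ν.map (th b η)) :=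
      Measure.isProbabilityMeasure_map (measurable_th b η).aemeasurable
    have h1 := main_ineq σ hσ (ν.map (th b η)) x b hρ r c hr hc0 hc1 n
    have h2 := W_map b η ν
    have h3 : ν (win x b (ρ / 2)) ≤ (ν.map (th b η)) (winO x b ρ) := by
      rw [Measure.map_apply (measurable_th b η) (measurableSet_winO x b ρ)]
      exact measure_mono (win_subset x b hb ρ η hη hηρ)
    calc _ ≤ ((1 + η : ℝ≥0) : ℝ≥0∞) * W (ν.map (th b η)) +
          ((1 + η : ℝ≥0) : ℝ≥0∞) * (((r * c : ℝ≥0) : ℝ≥0∞) *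
            ((ν.map (th b η)) (winO x b ρ) * ∫⁻ s, G x b ρ n s ∂σ)) := by
            refine add_le_add h2 ?_
            have h4 : (1 : ℝ≥0∞) ≤ ((1 + η : ℝ≥0) : ℝ≥0∞) := by
              rw [← ENNReal.coe_one, ENNReal.coe_le_coe]
              exact le_self_add
            calc _ = 1 * (((r * c : ℝ≥0) : ℝ≥0∞) *
                  (ν (win x b (ρ / 2)) * ∫⁻ s, G x b ρ n s ∂σ)) := (one_mul _).symm
              _ ≤ _ := by gcongr
      _ = ((1 + η : ℝ≥0) : ℝ≥0∞) * (W (ν.map (th b η)) + ((r * c : ℝ≥0) : ℝ≥0∞) *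
            ((ν.map (th b η)) (winO x b ρ) * ∫⁻ s, G x b ρ n s ∂σ)) := by rw [mul_add]
      _ ≤ _ := by gcongr
  have hlim : Tendsto (fun η : ℝ≥0 => ((1 + η : ℝ≥0) : ℝ≥0∞) *
      (((1 + r : ℝ≥0) : ℝ≥0∞) * maximin)) (𝓝[>] 0)
      (𝓝 (((1 + 0 : ℝ≥0) : ℝ≥0∞) * (((1 + r : ℝ≥0) : ℝ≥0∞) * maximin))) := by
    refine ENNReal.Tendsto.mul_const ?_ ?_
    · refine (ENNReal.continuous_coe.tendsto _).comp ?_
      exact ((continuous_const.add continuous_id).tendsto 0).mono_left nhdsWithin_le_nhds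
    · right
      exact ENNReal.mul_ne_top ENNReal.coe_ne_top maximin_ne_top
  rw [add_zero, ENNReal.coe_one, one_mul] at hlim
  refine ge_of_tendsto hlim ?_
  have h5 : (0 : ℝ≥0) < Real.toNNReal (ρ / 2) := by
    rw [Real.toNNReal_pos]; linarith
  filter_upwards [self_mem_nhdsWithin, mem_nhdsWithin_of_mem_nhds (Iic_mem_nhds h5)] with η h6 h7
  refine key η h6 ?_
  have : (η : ℝ) ≤ (Real.toNNReal (ρ / 2) : ℝ) := by exact_mod_cast h7
  rwa [Real.coe_toNNReal _ (by linarith)] at this

end Pool.Agent.H92HL
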