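import Pool.Agent.H92HL.Limit

set_option autoImplicit false

open MeasureTheory Filter Topology
open scoped ENNReal NNReal BigOperators

namespace Pool.Agent.H92HL

/-- `s` is a cheapest rule on the set `A` -/
def OptOn (μ : Measure unitInterval) (A : Set unitInterval) (s : Rule) : Prop :=
  ∫⁻ h in A, payoff s h ∂μ ≠ ∞ ∧ ∀ s' : Rule,
    ∫⁻ h in A, payoff s h ∂μ ≤ ∫⁻ h in A, payoff s' h ∂μ

section

variable (μ : Measure unitInterval)

lemma int_cons (A : Set unitInterval) (g : unitInterval) (t f : Rule) :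
    ∫⁻ h in A, payoff (cons g t f) h ∂μ = ∫⁻ h in A, (nndist g h : ℝ≥0∞) ∂μ +
      (∫⁻ h in A ∩ Set.Ioi g, payoff t h ∂μ + ∫⁻ h in A ∩ Set.Iio g, payoff f h ∂μ) := by
  have h1 : ∀ h, payoff (cons g t f) h = (nndist g h : ℝ≥0∞) +
      ((Set.Ioi g).indicator (fun h => payoff t h) h +
        (Set.Iio g).indicator (fun h => payoff f h) h) := by
    intro h
    rcases lt_trichotomy g h with h0 | h0 | h0
    · rw [payoff_cons_lt _ _ _ _ h0, Set.indicator_of_mem (Set.mem_Ioi.2 h0),
        Set.indicator_of_notMem (by simp [h0.le]), add_zero]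
    · rw [payoff_cons_eq _ _ _ _ h0, Set.indicator_of_notMem (by simp [h0]),
        Set.indicator_of_notMem (by simp [h0])]
      simp [h0]
    · rw [payoff_cons_gt _ _ _ _ h0, Set.indicator_of_notMem (by simp [h0.le]),
        Set.indicator_of_mem (Set.mem_Iio.2 h0), zero_add]
  simp only [h1]
  have hm : Measurable fun h : unitInterval => (nndist g h : ℝ≥0∞) :=
    (measurable_nndist.comp (measurable_const.prodMk measurable_id)).coe_nnreal_ennreal
  rw [lintegral_add_left hm, lintegral_add_left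
    ((measurable_payoff_right t).indicator measurableSet_Ioi),
    lintegral_indicator measurableSet_Ioi, lintegral_indicator measurableSet_Iio,
    Measure.restrict_restrict measurableSet_Ioi, Measure.restrict_restrict measurableSet_Iio,
    Set.inter_comm A, Set.inter_comm A]

lemma int_split (A : Set unitInterval) (s : Rule) :
    ∫⁻ h in A, payoff s h ∂μ = ∫⁻ h in A, (nndist (s []) h : ℝ≥0∞) ∂μ +
      (∫⁻ h in A ∩ Set.Ioi (s []), payoff (tl s true) h ∂μ +
        ∫⁻ h in A ∩ Set.Iio (s []), payoff (tl s false) h ∂μ) := by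
  conv_lhs => rw [← cons_tl s]
  exact int_cons μ A _ _ _

variable {μ}

lemma OptOn.right {A : Set unitInterval} {s : Rule} (h : OptOn μ A s) :
    OptOn μ (A ∩ Set.Ioi (s [])) (tl s true) := by
  have h1 := h.1
  rw [int_split μ A s] at h1
  have h2 := (ENNReal.add_ne_top.1 h1)
  have h3 := ENNReal.add_ne_top.1 h2.2
  refine ⟨h3.1, fun s' => ?_⟩
  have h4 := h.2 (cons (s []) s' (tl s false))
  rw [int_split μ A s, int_cons, ENNReal.add_le_add_iff_left h2.1,
    ENNReal.add_le_add_iff_right h3.2] at h4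
  exact h4

lemma OptOn.left {A : Set unitInterval} {s : Rule} (h : OptOn μ A s) :
    OptOn μ (A ∩ Set.Iio (s [])) (tl s false) := by
  have h1 := h.1
  rw [int_split μ A s] at h1
  have h2 := (ENNReal.add_ne_top.1 h1)
  have h3 := ENNReal.add_ne_top.1 h2.2
  refine ⟨h3.2, fun s' => ?_⟩
  have h4 := h.2 (cons (s []) (tl s true) s')
  rw [int_split μ A s, int_cons, ENNReal.add_le_add_iff_left h2.1,
    ENNReal.add_le_add_iff_left h3.1] at h4
  exact h4

lemma null_of_int_zero (hna : ∀ x, μ {x} = 0) {A : Set unitInterval}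
    (g : unitInterval) (h0 : ∫⁻ h in A, (nndist g h : ℝ≥0∞) ∂μ = 0) : μ A = 0 := by
  have hm : Measurable fun h : unitInterval => (nndist g h : ℝ≥0∞) :=
    (measurable_nndist.comp (measurable_const.prodMk measurable_id)).coe_nnreal_ennreal
  rw [lintegral_eq_zero_iff hm] at h0
  have h1 : ∀ᵐ h ∂(μ.restrict A), h ∈ ({g} : Set unitInterval) := by
    filter_upwards [h0] with h hh
    have : nndist g h = 0 := by simpa using hh
    rw [nndist_eq_zero] at this
    exact this.symm
  have h2 : μ.restrict A ({g} : Set unitInterval) = 0 :=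
    le_antisymm ((Measure.restrict_apply_le _ _).trans (hna g).le) zero_le
  have h3 : μ.restrict A Set.univ = 0 := by
    refine le_antisymm ?_ zero_le
    calc μ.restrict A Set.univ ≤ μ.restrict A ({g} ∪ {g}ᶜ) := by simp
      _ ≤ μ.restrict A {g} + μ.restrict A {g}ᶜ := measure_union_le _ _
      _ = 0 := by rw [h2, zero_add]; exact h1
  simpa using h3

lemma OptOn.pos_right (hna : ∀ x, μ {x} = 0) {A : Set unitInterval}
    {s : Rule} (h : OptOn μ A s) (hpos : μ A ≠ 0) : μ (A ∩ Set.Ioi (s [])) ≠ 0 := by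
  intro hz
  have h1 := h.1
  have hae : (A ∩ Set.Iio (s []) : Set unitInterval) =ᵐ[μ] A := by
    rw [ae_eq_set]
    constructor
    · rw [Set.sdiff_eq_empty.2 Set.inter_subset_left, measure_empty]
    · refine measure_mono_null (t := (A ∩ Set.Ioi (s [])) ∪ {s []}) ?_ ?_
      · rintro x ⟨hx1, hx2⟩
        rcases lt_trichotomy (s []) x with h0 | h0 | h0
        · exact Or.inl ⟨hx1, h0⟩
        · exact Or.inr h0.symm
        · exact absurd ⟨hx1, h0⟩ hx2
      · refine le_antisymm ((measure_union_le _ _).trans ?_) zero_le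
        rw [hz, hna, add_zero]
  have h2 := int_split μ A s
  have h3 : ∫⁻ h in A ∩ Set.Ioi (s []), payoff (tl s true) h ∂μ = 0 := by
    rw [Measure.restrict_eq_zero.2 hz, lintegral_zero_measure]
  have h4 : ∫⁻ h in A ∩ Set.Iio (s []), payoff (tl s false) h ∂μ =
      ∫⁻ h in A, payoff (tl s false) h ∂μ := by
    rw [Measure.restrict_congr_set hae]
  rw [h3, h4, zero_add] at h2
  have h5 := h.2 (tl s false)
  have h6 : ∫⁻ h in A, (nndist (s []) h : ℝ≥0∞) ∂μ = 0 := by
    have h7 : ∫⁻ h in A, (nndist (s []) h : ℝ≥0∞) ∂μ + ∫⁻ h in A, payoff s h ∂μ ≤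
        0 + ∫⁻ h in A, payoff s h ∂μ := by
      rw [zero_add]
      calc _ ≤ ∫⁻ h in A, (nndist (s []) h : ℝ≥0∞) ∂μ + ∫⁻ h in A, payoff (tl s false) h ∂μ := by
            gcongr
        _ = _ := h2.symm
    exact le_antisymm ((ENNReal.add_le_add_iff_right h1).1 h7) zero_le
  exact hpos (null_of_int_zero hna _ h6)

lemma OptOn.pos_left (hna : ∀ x, μ {x} = 0) {A : Set unitInterval}
    {s : Rule} (h : OptOn μ A s) (hpos : μ A ≠ 0) : μ (A ∩ Set.Iio (s [])) ≠ 0 := by
  intro hz
  have h1 := h.1
  have hae : (A ∩ Set.Ioi (s []) : Set unitInterval) =ᵐ[μ] A := by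
    rw [ae_eq_set]
    constructor
    · rw [Set.sdiff_eq_empty.2 Set.inter_subset_left, measure_empty]
    · refine measure_mono_null (t := (A ∩ Set.Iio (s [])) ∪ {s []}) ?_ ?_
      · rintro x ⟨hx1, hx2⟩
        rcases lt_trichotomy (s []) x with h0 | h0 | h0
        · exact absurd ⟨hx1, h0⟩ hx2
        · exact Or.inr h0.symm
        · exact Or.inl ⟨hx1, h0⟩
      · refine le_antisymm ((measure_union_le _ _).trans ?_) zero_le
        rw [hz, hna, add_zero]
  have h2 := int_split μ A s
  have h3 : ∫⁻ h in A ∩ Set.Iio (s []), payoff (tl s false) h ∂μ = 0 := by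
    rw [Measure.restrict_eq_zero.2 hz, lintegral_zero_measure]
  have h4 : ∫⁻ h in A ∩ Set.Ioi (s []), payoff (tl s true) h ∂μ =
      ∫⁻ h in A, payoff (tl s true) h ∂μ := by
    rw [Measure.restrict_congr_set hae]
  rw [h3, h4, add_zero] at h2
  have h5 := h.2 (tl s true)
  have h6 : ∫⁻ h in A, (nndist (s []) h : ℝ≥0∞) ∂μ = 0 := by
    have h7 : ∫⁻ h in A, (nndist (s []) h : ℝ≥0∞) ∂μ + ∫⁻ h in A, payoff s h ∂μ ≤
        0 + ∫⁻ h in A, payoff s h ∂μ := by
      rw [zero_add]
      calc _ ≤ ∫⁻ h in A, (nndist (s []) h : ℝ≥0∞) ∂μ + ∫⁻ h in A, payoff (tl s true) h ∂μ := by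
            gcongr
        _ = _ := h2.symm
    exact le_antisymm ((ENNReal.add_le_add_iff_right h1).1 h7) zero_le
  exact hpos (null_of_int_zero hna _ h6)

lemma pp_of_gap (hna : ∀ x, μ {x} = 0) (b q : unitInterval) (hq : q < b) (n : ℕ)
    (A : Set unitInterval) (hA : MeasurableSet A) (s : Rule) (h : OptOn μ A s) (hpos : μ A ≠ 0)
    (hgap : μ (A ∩ Set.Iio b) = 0) : (n : ℝ≥0) * nndist b q ≤ pp n s q := by
  induction n generalizing s A with
  | zero => simp
  | succ n ih =>
    have h1 := h.pos_left hna hpos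
    have h2 : b < s [] := by
      by_contra hle
      exact h1 (measure_mono_null (Set.inter_subset_inter_right A
        (Set.Iio_subset_Iio (not_lt.1 hle))) hgap)
    have h3 : q < s [] := hq.trans h2
    rw [pp_gt n s q h3]
    have h4 := ih (A ∩ Set.Iio (s [])) (hA.inter measurableSet_Iio) (tl s false) h.left h1
      (measure_mono_null (Set.inter_subset_inter_left _ Set.inter_subset_left) hgap)
    have h5 : nndist b q ≤ nndist (s []) q := by
      rw [← NNReal.coe_le_coe, coe_nndist_I, coe_nndist_I]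
      have h2' : (b : ℝ) < s [] := h2
      have hq' : (q : ℝ) < b := hq
      rw [abs_of_pos (by linarith), abs_of_pos (by linarith)]
      linarith
    calc ((n + 1 : ℕ) : ℝ≥0) * nndist b q = nndist b q + n * nndist b q := by push_cast; ring
      _ ≤ _ := add_le_add h5 h4

lemma payoff_of_gap (hna : ∀ x, μ {x} = 0) (b q : unitInterval) (hq : q < b)
    (A : Set unitInterval) (hA : MeasurableSet A) (s : Rule) (h : OptOn μ A s) (hpos : μ A ≠ 0)
    (hgap : μ (A ∩ Set.Iio b) = 0) : payoff s q = ∞ := by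
  by_contra hne
  have hpos' : (nndist b q : ℝ≥0∞) ≠ 0 := by
    rw [Ne, ENNReal.coe_eq_zero, nndist_eq_zero]
    exact hq.ne'
  obtain ⟨n, hn⟩ := ENNReal.exists_nat_mul_gt hpos' hne
  have h1 : ((n : ℝ≥0∞) * (nndist b q : ℝ≥0∞)) ≤ pp n s q := by
    exact_mod_cast pp_of_gap hna b q hq n A hA s h hpos hgap
  exact absurd (h1.trans (pp_le_payoff _ _ _)) (not_le.2 hn)

lemma exists_inf (hna : ∀ x, μ {x} = 0) (a b q0 : unitInterval) (ha : a < q0) (hb : q0 < b)
    (Q : Set unitInterval) (hQ : Dense Q) (n : ℕ)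
    (A : Set unitInterval) (hA : MeasurableSet A) (s : Rule) (h : OptOn μ A s) (hpos : μ A ≠ 0)
    (hgap : μ (A ∩ Set.Ioo a b) = 0) (δ : ℝ≥0) (hδa : δ ≤ nndist a q0) (hδb : δ ≤ nndist b q0)
    (hn : pp n s q0 < n * δ) : ∃ q ∈ Q, q ∈ Set.Ioo a b ∧ payoff s q = ∞ := by
  induction n generalizing s A with
  | zero => simp at hn
  | succ n ih =>
    rcases lt_or_ge a (s []) with h1 | h1
    · rcases lt_or_ge (s []) b with h2 | h2
      · obtain ⟨q, hq, hqQ⟩ := hQ.exists_mem_open isOpen_Ioo (Set.nonempty_Ioo.2 h2)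
        refine ⟨q, hq, ⟨h1.trans hqQ.1, hqQ.2⟩, ?_⟩
        rw [payoff_lt s q hqQ.1]
        have hp := h.pos_right hna hpos
        rw [payoff_of_gap hna b q hqQ.2 (A ∩ Set.Ioi (s [])) (hA.inter measurableSet_Ioi)
          (tl s true) h.right hp ?_, add_top]
        refine measure_mono_null ?_ hgap
        rintro y ⟨⟨hy1, hy2⟩, hy3⟩
        exact ⟨hy1, h1.trans hy2, hy3⟩
      · -- the guess is to the right of the gap
        have h3 : q0 < s [] := hb.trans_le h2
        rw [pp_gt n s q0 h3] at hn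
        have h5 : δ ≤ nndist (s []) q0 := by
          refine hδb.trans ?_
          rw [← NNReal.coe_le_coe, coe_nndist_I, coe_nndist_I]
          have h2' : (b : ℝ) ≤ s [] := h2
          have hq' : (q0 : ℝ) < b := hb
          rw [abs_of_pos (by linarith), abs_of_pos (by linarith)]
          linarith
        have h6 : pp n (tl s false) q0 < n * δ := by
          have h7 : δ + pp n (tl s false) q0 < δ + n * δ := by
            calc δ + pp n (tl s false) q0 ≤ nndist (s []) q0 + pp n (tl s false) q0 := by gcongr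
              _ < ((n + 1 : ℕ) : ℝ≥0) * δ := hn
              _ = δ + n * δ := by push_cast; ring
          exact lt_of_add_lt_add_left h7
        obtain ⟨q, hq, hqI, hqt⟩ := ih (A ∩ Set.Iio (s [])) (hA.inter measurableSet_Iio)
          (tl s false) h.left (h.pos_left hna hpos)
          (measure_mono_null (Set.inter_subset_inter_left _ Set.inter_subset_left) hgap) h6
        exact ⟨q, hq, hqI, by rw [payoff_gt s q (hqI.2.trans_le h2), hqt, add_top]⟩
    · have h3 : s [] < q0 := h1.trans_lt ha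
      rw [pp_lt n s q0 h3] at hn
      have h5 : δ ≤ nndist (s []) q0 := by
        refine hδa.trans ?_
        rw [← NNReal.coe_le_coe, coe_nndist_I, coe_nndist_I]
        have h2' : (s [] : ℝ) ≤ a := h1
        have hq' : (a : ℝ) < q0 := ha
        rw [abs_of_neg (by linarith), abs_of_neg (by linarith)]
        linarith
      have h6 : pp n (tl s true) q0 < n * δ := by
        have h7 : δ + pp n (tl s true) q0 < δ + n * δ := by
          calc δ + pp n (tl s true) q0 ≤ nndist (s []) q0 + pp n (tl s true) q0 := by gcongr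
            _ < ((n + 1 : ℕ) : ℝ≥0) * δ := hn
            _ = δ + n * δ := by push_cast; ring
        exact lt_of_add_lt_add_left h7
      obtain ⟨q, hq, hqI, hqt⟩ := ih (A ∩ Set.Ioi (s [])) (hA.inter measurableSet_Ioi)
        (tl s true) h.right (h.pos_right hna hpos)
        (measure_mono_null (Set.inter_subset_inter_left _ Set.inter_subset_left) hgap) h6
      exact ⟨q, hq, hqI, by rw [payoff_lt s q (h1.trans_lt hqI.1), hqt, add_top]⟩

end

/-- Every optimal hider strategy has no atoms. -/
theorem optimal_no_atom (μ : ProbabilityMeasure unitInterval)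
    (hμ : W (μ : Measure unitInterval) = maximin) (x : unitInterval) :
    (μ : Measure unitInterval) {x} = 0 := by
  refine limit_no_atom (ι := ℕ) (L := atTop) (fun _ => μ) ?_ μ tendsto_const_nhds x
  rw [hμ]
  exact tendsto_const_nhds

/-- Every optimal hider strategy has full support. -/
theorem optimal_support (μ : ProbabilityMeasure unitInterval)
    (hμ : W (μ : Measure unitInterval) = maximin) (U : Set unitInterval) (hU : IsOpen U)
    (hne : U.Nonempty) : (μ : Measure unitInterval) U ≠ 0 := by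
  intro hzero
  set m : Measure unitInterval := (μ : Measure unitInterval) with hm
  have hna : ∀ x, m {x} = 0 := optimal_no_atom μ hμ
  obtain ⟨a, b, hab, hsub⟩ := hU.exists_Ioo_subset hne
  have hgap : m (Set.Ioo a b) = 0 := measure_mono_null hsub hzero
  obtain ⟨σ, hσ⟩ := exists_sigma
  obtain ⟨Q, hQc, hQd⟩ := TopologicalSpace.exists_countable_dense unitInterval
  have h1 := ae_finite (σ : Measure Rule) hσ Q hQc
  have h2 : (fun _ : Rule => maximin) =ᵐ[(σ : Measure Rule)] fun s => ∫⁻ h, payoff s h ∂m := by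
    refine ae_eq_of_ae_le_of_lintegral_le ?_ ?_ ?_ ?_
    · exact Eventually.of_forall fun s => by rw [← hμ]; exact W_le _ s
    · simp [maximin_ne_top]
    · exact (measurable_int m).aemeasurable
    · rw [lintegral_lintegral_swap measurable_payoff.aemeasurable]
      calc _ ≤ ∫⁻ _, maximin ∂m := lintegral_mono fun h => hσ h
        _ = ∫⁻ _, maximin ∂(σ : Measure Rule) := by simp [hm]
  obtain ⟨s, hs1, hs2⟩ := (h1.and h2).exists
  have hs3 : ∫⁻ h, payoff s h ∂m = maximin := hs2.symm
  have hopt : OptOn m Set.univ s := by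
    rw [OptOn, Measure.restrict_univ, hs3]
    exact ⟨maximin_ne_top, fun s' => by rw [← hμ]; exact W_le _ s'⟩
  obtain ⟨q0, hq0, hq0I⟩ := hQd.exists_mem_open isOpen_Ioo (Set.nonempty_Ioo.2 hab)
  set δ : ℝ≥0 := min (nndist a q0) (nndist b q0) with hδ
  have hδpos : (δ : ℝ≥0∞) ≠ 0 := by
    rw [Ne, ENNReal.coe_eq_zero]
    have : 0 < δ := by
      rw [hδ, lt_min_iff]
      constructor
      · rw [pos_iff_ne_zero, Ne, nndist_eq_zero]; exact hq0I.1.ne
      · rw [pos_iff_ne_zero, Ne, nndist_eq_zero]; exact hq0I.2.ne'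
    exact this.ne'
  obtain ⟨n, hn⟩ := ENNReal.exists_nat_mul_gt hδpos (hs1 q0 hq0).ne
  have hn' : pp n s q0 < n * δ := by
    have : (pp n s q0 : ℝ≥0∞) < n * δ := (pp_le_payoff n s q0).trans_lt hn
    exact_mod_cast this
  obtain ⟨q, hq, -, hqt⟩ := exists_inf hna a b q0 hq0I.1 hq0I.2 Q hQd n Set.univ
    MeasurableSet.univ s hopt (by simp [hm]) (by rwa [Set.univ_inter]) δ (min_le_left _ _)
    (min_le_right _ _) hn'
  exact (hs1 q hq).ne hqt

/-- The hider has an optimal strategy. -/
theorem exists_optimal : ∃ μ : ProbabilityMeasure unitInterval,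
    W (μ : Measure unitInterval) = maximin := by
  have hne : (Set.range fun ν : ProbabilityMeasure unitInterval =>
      W (ν : Measure unitInterval)).Nonempty := ⟨_, ⟨Measure.dirac 0, inferInstance⟩, rfl⟩
  obtain ⟨u, -, hu, hu2⟩ := exists_seq_tendsto_sSup hne (OrderTop.bddAbove _)
  choose ν hν using hu2
  have hlim : Tendsto (fun n => W (ν n : Measure unitInterval)) atTop (𝓝 maximin) := by
    rw [maximin_eq]
    have : (fun n => W (ν n : Measure unitInterval)) = u := funext hν
    rw [this]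
    exact hu
  let F : Ultrafilter ℕ := Ultrafilter.of atTop
  have hF : (F : Filter ℕ) ≤ atTop := Ultrafilter.of_le atTop
  obtain ⟨μ, -, hμ⟩ := isCompact_univ.ultrafilter_le_nhds (F.map ν) (by simp)
  refine ⟨μ, limit_optimal (L := (F : Filter ℕ)) ν (hlim.mono_left hF) μ ?_⟩
  exact hμ

end Pool.Agent.H92HL
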