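import Pool.Agent.H92HL.Basic

set_option autoImplicit false

open MeasureTheory Filter Topology
open scoped ENNReal NNReal BigOperators

namespace Pool.Agent.H92HL

/-- The expected payoff of the hider strategy `ν` against the mixed search strategy `σ`. -/
noncomputable def expPayoff (ν : ProbabilityMeasure unitInterval) (σ : ProbabilityMeasure Rule) :
    ℝ≥0∞ :=
  ∫⁻ s, ∫⁻ h, payoff s h ∂(ν : Measure unitInterval) ∂(σ : Measure Rule)

/-- The hider's maximin value. -/
noncomputable def maximin : ℝ≥0∞ :=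
  ⨆ ν : ProbabilityMeasure unitInterval, ⨅ σ : ProbabilityMeasure Rule, expPayoff ν σ

/-- `ν` is an optimal hider strategy. -/
def IsOptimal (ν : ProbabilityMeasure unitInterval) : Prop :=
  ⨅ σ : ProbabilityMeasure Rule, expPayoff ν σ = maximin

/-- what `ν` guarantees against pure strategies -/
noncomputable def W (ν : Measure unitInterval) : ℝ≥0∞ := ⨅ s : Rule, ∫⁻ h, payoff s h ∂ν

lemma W_le (ν : Measure unitInterval) (s : Rule) : W ν ≤ ∫⁻ h, payoff s h ∂ν := iInf_le _ s

lemma measurable_payoff_left (h : unitInterval) : Measurable fun s : Rule => payoff s h :=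
  measurable_payoff.comp (measurable_id.prodMk measurable_const)

lemma measurable_payoff_right (s : Rule) : Measurable fun h : unitInterval => payoff s h :=
  measurable_payoff.comp (measurable_const.prodMk measurable_id)

lemma measurable_int (ν : Measure unitInterval) [SFinite ν] :
    Measurable fun s : Rule => ∫⁻ h, payoff s h ∂ν :=
  Measurable.lintegral_prod_right' measurable_payoff

lemma iInf_exp (ν : ProbabilityMeasure unitInterval) :
    ⨅ σ : ProbabilityMeasure Rule, expPayoff ν σ = W (ν : Measure unitInterval) := by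
  apply le_antisymm
  · refine le_iInf fun s => ?_
    refine (iInf_le _ ⟨Measure.dirac s, inferInstance⟩).trans ?_
    unfold expPayoff
    rw [ProbabilityMeasure.coe_mk, lintegral_dirac' s (measurable_int _)]
  · refine le_iInf fun σ => ?_
    unfold expPayoff
    calc W (ν : Measure unitInterval)
        = ∫⁻ _ : Rule, W (ν : Measure unitInterval) ∂(σ : Measure Rule) := by simp
      _ ≤ _ := lintegral_mono fun s => W_le _ s

lemma W_le_maximin (ν : ProbabilityMeasure unitInterval) :
    W (ν : Measure unitInterval) ≤ maximin := by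
  rw [← iInf_exp]
  exact le_iSup (fun ν : ProbabilityMeasure unitInterval =>
    ⨅ σ : ProbabilityMeasure Rule, expPayoff ν σ) ν

lemma W_le_maximin' (ν : Measure unitInterval) [IsProbabilityMeasure ν] :
    W ν ≤ maximin := W_le_maximin ⟨ν, inferInstance⟩

lemma maximin_eq : maximin = ⨆ ν : ProbabilityMeasure unitInterval, W (ν : Measure unitInterval) := by
  unfold maximin
  simp only [iInf_exp]

lemma isOptimal_iff (ν : ProbabilityMeasure unitInterval) :
    IsOptimal ν ↔ W (ν : Measure unitInterval) = maximin := by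
  unfold IsOptimal
  rw [iInf_exp]

lemma payoff_bis_le_one (h : unitInterval) : payoff (bis 0 1) h ≤ 1 := by
  refine (payoff_bis 0 1 h h.2.1 h.2.2).trans ?_
  simp

lemma maximin_le_one : maximin ≤ 1 := by
  rw [maximin_eq]
  refine iSup_le fun ν => (W_le _ (bis 0 1)).trans ?_
  calc _ ≤ ∫⁻ _ : unitInterval, 1 ∂(ν : Measure unitInterval) :=
        lintegral_mono fun h => payoff_bis_le_one h
    _ = 1 := by simp

lemma maximin_ne_top : maximin ≠ ∞ := ne_top_of_le_ne_top ENNReal.one_ne_top maximin_le_one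

/-! ### Weak convergence -/

lemma continuous_lintegral_pm {Ω : Type*} [MeasurableSpace Ω] [TopologicalSpace Ω]
    [OpensMeasurableSpace Ω] [CompactSpace Ω] (f : Ω → ℝ≥0) (hf : Continuous f) :
    Continuous fun μ : ProbabilityMeasure Ω => ∫⁻ x, (f x : ℝ≥0∞) ∂(μ : Measure Ω) := by
  let F : BoundedContinuousFunction Ω ℝ≥0 := BoundedContinuousFunction.mkOfCompact ⟨f, hf⟩
  have h := ProbabilityMeasure.continuous_testAgainstNN_eval (Ω := Ω) F
  have h2 : (fun μ : ProbabilityMeasure Ω => ∫⁻ x, (f x : ℝ≥0∞) ∂(μ : Measure Ω)) =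
      fun μ : ProbabilityMeasure Ω => ((μ.toFiniteMeasure.testAgainstNN F : ℝ≥0) : ℝ≥0∞) := by
    funext μ
    rw [FiniteMeasure.testAgainstNN_coe_eq]
    rfl
  rw [h2]
  exact ENNReal.continuous_coe.comp h

/-- Fatou for the approximations of `T` -/
lemma lintegral_T_le {α : Type*} [MeasurableSpace α] (μ : Measure α) (f : α → ℝ≥0)
    (g : ℕ → α → ℝ≥0) (hg : ∀ k, Measurable (g k)) (hf : ∀ x, ∀ᶠ k in atTop, g k x = f x)
    (c : ℝ≥0∞) (hc : ∀ k, ∫⁻ x, (g k x : ℝ≥0∞) ∂μ ≤ c) : ∫⁻ x, (f x : ℝ≥0∞) ∂μ ≤ c := by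
  have h1 : ∀ x, (f x : ℝ≥0∞) = liminf (fun k => (g k x : ℝ≥0∞)) atTop := by
    intro x
    have : Tendsto (fun k => (g k x : ℝ≥0∞)) atTop (𝓝 (f x : ℝ≥0∞)) := by
      refine tendsto_const_nhds.congr' ?_
      filter_upwards [hf x] with k hk
      rw [hk]
    exact this.liminf_eq.symm
  calc ∫⁻ x, (f x : ℝ≥0∞) ∂μ = ∫⁻ x, liminf (fun k => (g k x : ℝ≥0∞)) atTop ∂μ := by
        simp only [h1]
    _ ≤ liminf (fun k => ∫⁻ x, (g k x : ℝ≥0∞) ∂μ) atTop :=
        lintegral_liminf_le fun k => (hg k).coe_nnreal_ennreal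
    _ ≤ c := by
        refine (liminf_le_liminf (Eventually.of_forall hc)).trans ?_
        simp

lemma isClosed_sub (n : ℕ) (h : unitInterval) (c : ℝ≥0∞) :
    IsClosed {σ : ProbabilityMeasure Rule | ∫⁻ s, (pp n s h : ℝ≥0∞) ∂(σ : Measure Rule) ≤ c} := by
  let g : ℕ → Rule → ℝ≥0 := fun k s => T (fun g h => nndist g h) (fun _ _ => 0) (cK k) n s h
  have hgc : ∀ k, Continuous (g k) := fun k =>
    (continuous_T _ _ _ continuous_nndist continuous_const (continuous_cK k) n).comp
      (continuous_id.prodMk continuous_const)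
  have : {σ : ProbabilityMeasure Rule | ∫⁻ s, (pp n s h : ℝ≥0∞) ∂(σ : Measure Rule) ≤ c} =
      ⋂ k : ℕ, {σ : ProbabilityMeasure Rule | ∫⁻ s, (g k s : ℝ≥0∞) ∂(σ : Measure Rule) ≤ c} := by
    ext σ
    simp only [Set.mem_ofPred_eq, Set.mem_iInter]
    constructor
    · intro hσ k
      refine (lintegral_mono fun s => ?_).trans hσ
      exact ENNReal.coe_le_coe.2 (T_le _ _ _ (fun _ _ => le_refl _) k n s h)
    · intro hσ
      refine lintegral_T_le _ _ g (fun k => (hgc k).measurable) (fun s => ?_) c hσ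
      exact T_eventually _ (fun _ _ _ => 0) (fun _ _ => 0)
        (fun _ _ => Eventually.of_forall fun _ => rfl) n s h
  rw [this]
  exact isClosed_iInter fun k => isClosed_le (continuous_lintegral_pm _ (hgc k)) continuous_const

/-! ### Minimax -/

lemma fin_minimax (n : ℕ) (H : Finset unitInterval) (v' : ℝ) (hv : maximin.toReal < v') :
    ∃ σ : ProbabilityMeasure Rule, ∀ h ∈ H,
      ∫⁻ s, (pp n s h : ℝ≥0∞) ∂(σ : Measure Rule) ≤ ENNReal.ofReal v' := by
  classical
  by_contra hcon
  push Not at hcon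
  have hm0 : 0 ≤ maximin.toReal := ENNReal.toReal_nonneg
  let K : Set (H → ℝ) := Set.pi Set.univ fun _ => Set.Iio v'
  let C : Set (H → ℝ) := {u | (∀ h, 0 ≤ u h) ∧ ∃ σ : ProbabilityMeasure Rule, ∀ h : H,
    ∫⁻ s, (pp n s h : ℝ≥0∞) ∂(σ : Measure Rule) ≤ ENNReal.ofReal (u h)}
  have hKo : IsOpen K := isOpen_set_pi Set.finite_univ fun _ _ => isOpen_Iio
  have hKc : Convex ℝ K := convex_pi fun _ _ => convex_Iio v'
  have hCc : Convex ℝ C := by
    rintro u ⟨hu0, σ, hσ⟩ w ⟨hw0, τ, hτ⟩ a b ha hb hab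
    refine ⟨fun h => ?_, ?_⟩
    · simp only [Pi.add_apply, Pi.smul_apply, smul_eq_mul]
      have := mul_nonneg ha (hu0 h)
      have := mul_nonneg hb (hw0 h)
      linarith
    · let m : Measure Rule := ENNReal.ofReal a • (σ : Measure Rule) +
        ENNReal.ofReal b • (τ : Measure Rule)
      have hm : IsProbabilityMeasure m := by
        constructor
        simp only [m, Measure.add_apply, Measure.smul_apply, smul_eq_mul, measure_univ, mul_one]
        rw [← ENNReal.ofReal_add ha hb, hab, ENNReal.ofReal_one]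
      refine ⟨⟨m, hm⟩, fun h => ?_⟩
      have e1 : ∫⁻ s, (pp n s h : ℝ≥0∞) ∂m = ENNReal.ofReal a *
          (∫⁻ s, (pp n s h : ℝ≥0∞) ∂(σ : Measure Rule)) + ENNReal.ofReal b *
          (∫⁻ s, (pp n s h : ℝ≥0∞) ∂(τ : Measure Rule)) := by
        rw [lintegral_add_measure, lintegral_smul_measure, lintegral_smul_measure]
        rfl
      rw [ProbabilityMeasure.coe_mk, e1]
      simp only [Pi.add_apply, Pi.smul_apply, smul_eq_mul]
      rw [ENNReal.ofReal_add (mul_nonneg ha (hu0 h)) (mul_nonneg hb (hw0 h)),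
        ENNReal.ofReal_mul ha, ENNReal.ofReal_mul hb]
      gcongr
      · exact hσ h
      · exact hτ h
  have hdirac : ∀ s : Rule, (fun h : H => (pp n s h : ℝ)) ∈ C := by
    intro s
    refine ⟨fun h => NNReal.coe_nonneg _, ⟨Measure.dirac s, inferInstance⟩, fun h => ?_⟩
    rw [ProbabilityMeasure.coe_mk, lintegral_dirac' s]
    · simp
    · exact ((measurable_pp n).comp (measurable_id.prodMk measurable_const)).coe_nnreal_ennreal
  have hup : ∀ u ∈ C, ∀ w : H → ℝ, (∀ h, u h ≤ w h) → w ∈ C := by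
    rintro u ⟨hu0, σ, hσ⟩ w hw
    exact ⟨fun h => (hu0 h).trans (hw h), σ, fun h =>
      (hσ h).trans (ENNReal.ofReal_le_ofReal (hw h))⟩
  have hdisj : Disjoint K C := by
    rw [Set.disjoint_left]
    rintro u hu ⟨hu0, σ, hσ⟩
    obtain ⟨h, hh, hlt⟩ := hcon σ
    have h1 := hσ ⟨h, hh⟩
    have h2 : u ⟨h, hh⟩ < v' := hu ⟨h, hh⟩ (Set.mem_univ _)
    exact absurd (h1.trans (ENNReal.ofReal_le_ofReal h2.le)) (not_le.2 hlt)
  obtain ⟨f, u, hfK, hfC⟩ := geometric_hahn_banach_open hKc hKo hCc hdisj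
  let p : H → ℝ := fun h => f fun j => if h = j then 1 else 0
  have hf : ∀ w : H → ℝ, f w = ∑ h, w h * p h := by
    intro w
    have := LinearMap.pi_apply_eq_sum_univ (f : (H → ℝ) →ₗ[ℝ] ℝ) w
    simpa [p, smul_eq_mul] using this
  let s0 : Rule := fun _ => 0
  have hp : ∀ h, 0 ≤ p h := by
    intro h
    by_contra hneg
    push Not at hneg
    set w0 : H → ℝ := fun h => (pp n s0 h : ℝ) with hw0
    have hw0C := hdirac s0
    have h0 := hfC _ hw0C
    set t : ℝ := (f w0 - u + 1) / (-p h) with ht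
    have htpos : 0 ≤ t := by
      apply div_nonneg
      · linarith
      · linarith
    have h1 := hfC (w0 + t • fun j => if h = j then 1 else 0) (hup _ hw0C _ fun j => by
      simp only [Pi.add_apply, Pi.smul_apply, smul_eq_mul, hw0]
      split_ifs <;> linarith)
    rw [map_add, map_smul, smul_eq_mul] at h1
    have h2 : t * p h = -(f w0 - u + 1) := by
      have hne : p h ≠ 0 := hneg.ne
      rw [ht, div_neg, neg_mul, div_mul_cancel₀ _ hne]
    change u ≤ f w0 + t * p h at h1
    rw [h2] at h1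
    linarith
  have hS0 : 0 ≤ ∑ h, p h := Finset.sum_nonneg fun h _ => hp h
  have hS : 0 < ∑ h, p h := by
    rcases hS0.lt_or_eq with h | h
    · exact h
    · exfalso
      have h1 := (Finset.sum_eq_zero_iff_of_nonneg fun h _ => hp h).1 h.symm
      have h2 : ∀ w, f w = 0 := by
        intro w
        rw [hf w]
        exact Finset.sum_eq_zero fun h hh => by rw [h1 h hh, mul_zero]
      have h3 := hfK (fun _ => v' - 1) (fun _ _ => by simp)
      have h4 := hfC _ (hdirac s0)
      rw [h2] at h3 h4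
      linarith
  set S := ∑ h, p h with hSdef
  set v1 : ℝ := (maximin.toReal + v') / 2 with hv1
  have hv1lt : v1 < v' := by rw [hv1]; linarith
  have hv1gt : maximin.toReal < v1 := by rw [hv1]; linarith
  have hline : v1 * S < u := by
    have := hfK (fun _ => v1) (fun _ _ => hv1lt)
    rw [hf] at this
    rwa [← Finset.mul_sum] at this
  let ν : Measure unitInterval := ∑ h : H, ENNReal.ofReal (p h / S) • Measure.dirac (h : unitInterval)
  have hν : IsProbabilityMeasure ν := by
    constructor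
    simp only [ν, Measure.coe_finsetSum, Finset.sum_apply, Measure.smul_apply, smul_eq_mul,
      measure_univ, mul_one]
    rw [← ENNReal.ofReal_sum_of_nonneg fun h _ => div_nonneg (hp h) hS0, ← Finset.sum_div,
      div_self hS.ne', ENNReal.ofReal_one]
  have hW : ENNReal.ofReal v1 ≤ W ν := by
    refine le_iInf fun s => ?_
    have e1 : ∫⁻ h, payoff s h ∂ν = ∑ h : H, ENNReal.ofReal (p h / S) * payoff s h := by
      simp only [ν]
      rw [lintegral_finsetSum_measure]
      refine Finset.sum_congr rfl fun h _ => ?_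
      rw [lintegral_smul_measure, lintegral_dirac' _ (measurable_payoff_right s)]
      rfl
    rw [e1]
    have h1 := hfC _ (hdirac s)
    rw [hf] at h1
    calc ENNReal.ofReal v1 ≤ ENNReal.ofReal (∑ h : H, (p h / S) * pp n s h) := by
          apply ENNReal.ofReal_le_ofReal
          have h2 : ∑ h : H, (p h / S) * (pp n s h : ℝ) = (∑ h : H, (pp n s h : ℝ) * p h) / S := by
            rw [Finset.sum_div]
            refine Finset.sum_congr rfl fun h _ => ?_
            ring
          rw [h2, le_div_iff₀ hS]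
          linarith
      _ = ∑ h : H, ENNReal.ofReal (p h / S) * (pp n s h : ℝ≥0∞) := by
          rw [ENNReal.ofReal_sum_of_nonneg]
          · refine Finset.sum_congr rfl fun h _ => ?_
            rw [ENNReal.ofReal_mul (div_nonneg (hp h) hS0), ENNReal.ofReal_coe_nnreal]
          · intro h _
            exact mul_nonneg (div_nonneg (hp h) hS0) (NNReal.coe_nonneg _)
      _ ≤ _ := by
          gcongr with h
          exact pp_le_payoff _ _ _
  have h1 := hW.trans (W_le_maximin' ν)
  have h2 : v1 ≤ maximin.toReal := by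
    rwa [← ENNReal.ofReal_le_iff_le_toReal maximin_ne_top]
  linarith

/-- The searcher has a mixed strategy that guarantees the maximin value. -/
theorem exists_sigma : ∃ σ : ProbabilityMeasure Rule, ∀ h : unitInterval,
    ∫⁻ s, payoff s h ∂(σ : Measure Rule) ≤ maximin := by
  classical
  let t : ℕ × unitInterval × ℕ → Set (ProbabilityMeasure Rule) := fun i =>
    {σ | ∫⁻ s, (pp i.1 s i.2.1 : ℝ≥0∞) ∂(σ : Measure Rule) ≤
      ENNReal.ofReal (maximin.toReal + 1 / (i.2.2 + 1))}
  have hne : (Set.univ ∩ ⋂ i, t i).Nonempty := by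
    refine IsCompact.inter_iInter_nonempty isCompact_univ t (fun i => isClosed_sub _ _ _) ?_
    intro u
    set N := u.sup fun i => i.1
    set J := u.sup fun i => i.2.2
    obtain ⟨σ, hσ⟩ := fin_minimax N (u.image fun i => i.2.1) (maximin.toReal + 1 / (J + 1))
      (by have : (0:ℝ) < 1 / (J + 1) := by positivity
          linarith)
    refine ⟨σ, Set.mem_univ _, ?_⟩
    simp only [Set.mem_iInter]
    intro i hi
    have h1 := hσ i.2.1 (Finset.mem_image_of_mem _ hi)
    have hN : i.1 ≤ N := Finset.le_sup (f := fun i : ℕ × unitInterval × ℕ => i.1) hi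
    have hJ : i.2.2 ≤ J := Finset.le_sup (f := fun i : ℕ × unitInterval × ℕ => i.2.2) hi
    calc ∫⁻ s, (pp i.1 s i.2.1 : ℝ≥0∞) ∂(σ : Measure Rule)
        ≤ ∫⁻ s, (pp N s i.2.1 : ℝ≥0∞) ∂(σ : Measure Rule) :=
          lintegral_mono fun s => ENNReal.coe_le_coe.2 (pp_mono s i.2.1 hN)
      _ ≤ _ := h1
      _ ≤ _ := by
          apply ENNReal.ofReal_le_ofReal
          gcongr
  obtain ⟨σ, -, hσ⟩ := hne
  simp only [Set.mem_iInter] at hσ
  refine ⟨σ, fun h => ?_⟩
  have h1 : ∀ n, ∫⁻ s, (pp n s h : ℝ≥0∞) ∂(σ : Measure Rule) ≤ maximin := by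
    intro n
    have h2 : Tendsto (fun j : ℕ => ENNReal.ofReal (maximin.toReal + 1 / ((j : ℝ) + 1))) atTop
        (𝓝 (ENNReal.ofReal (maximin.toReal + 0))) := by
      apply ENNReal.tendsto_ofReal
      exact tendsto_const_nhds.add tendsto_one_div_add_atTop_nhds_zero_nat
    rw [add_zero, ENNReal.ofReal_toReal maximin_ne_top] at h2
    exact ge_of_tendsto' h2 fun j => hσ (n, h, j)
  simp only [payoff_eq_iSup]
  rw [lintegral_iSup]
  · exact iSup_le h1
  · intro n
    exact ((measurable_pp n).comp (measurable_id.prodMk measurable_const)).coe_nnreal_ennreal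
  · intro m n hmn s
    exact ENNReal.coe_le_coe.2 (pp_mono s h hmn)

end Pool.Agent.H92HL
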